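import Mathlib

/-!
# Farkas' lemma for finitely many linear forms on a real vector space
-/

set_option autoImplicit false

namespace Pool.Agent.Helper88.CC

/-- Farkas' lemma (algebraic form, after Bartl). -/
theorem farkas {E ι : Type*} [AddCommGroup E] [Module ℝ E] [DecidableEq ι] (s : Finset ι) :
    ∀ (a : ι → E →ₗ[ℝ] ℝ) (b : E →ₗ[ℝ] ℝ), (∀ x, (∀ i ∈ s, 0 ≤ a i x) → 0 ≤ b x) →
      ∃ w : ι → ℝ, (∀ i, 0 ≤ w i) ∧ b = ∑ i ∈ s, w i • a i := by
  induction s using Finset.induction_on with
  | empty =>
    intro a b H
    refine ⟨fun _ => 0, fun _ => le_refl _, ?_⟩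
    ext x
    have h1 := H x (by simp)
    have h2 := H (-x) (by simp)
    rw [map_neg] at h2
    simp only [Finset.sum_empty, LinearMap.zero_apply]
    linarith
  | insert m s hm ih =>
    intro a b H
    by_cases hc : ∀ x, (∀ i ∈ s, 0 ≤ a i x) → 0 ≤ b x
    · obtain ⟨w, hw, hb⟩ := ih a b hc
      refine ⟨fun i => if i = m then 0 else w i, fun i => ?_, ?_⟩
      · by_cases h : i = m
        · simp [h]
        · simp [h, hw i]
      · rw [Finset.sum_insert hm, hb]
        simp only [if_true, zero_smul, zero_add]
        apply Finset.sum_congr rfl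
        intro i hi
        have h : i ≠ m := fun h => hm (h ▸ hi)
        rw [if_neg h]
    · push Not at hc
      obtain ⟨x₀, hx₀, hbx₀⟩ := hc
      have ham : a m x₀ < 0 := by
        by_contra hcon
        push Not at hcon
        have := H x₀ (by
          intro i hi
          rcases Finset.mem_insert.1 hi with h | h
          · rw [h]; exact hcon
          · exact hx₀ i h)
        linarith
      set t : ℝ := -(a m x₀) with ht
      have htp : 0 < t := by rw [ht]; linarith
      set x₁ : E := t⁻¹ • x₀ with hx₁
      have h1 : a m x₁ = -1 := by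
        rw [hx₁, map_smul, smul_eq_mul]
        have : a m x₀ = -t := by rw [ht]; ring
        rw [this]
        field_simp
      have h2 : ∀ i ∈ s, 0 ≤ a i x₁ := by
        intro i hi
        rw [hx₁, map_smul, smul_eq_mul]
        exact mul_nonneg (inv_nonneg.2 htp.le) (hx₀ i hi)
      have h3 : b x₁ < 0 := by
        rw [hx₁, map_smul, smul_eq_mul]
        exact mul_neg_of_pos_of_neg (inv_pos.2 htp) hbx₀
      obtain ⟨w, hw, hb⟩ := ih (fun i => a i + a i x₁ • a m) (b + b x₁ • a m) (by
        intro x hx
        have h4 := H (x + a m x • x₁) (by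
          intro i hi
          rcases Finset.mem_insert.1 hi with h | h
          · rw [h, map_add, map_smul, smul_eq_mul, h1]
            linarith
          · have h5 := hx i h
            simp only [LinearMap.add_apply, LinearMap.smul_apply, smul_eq_mul] at h5
            rw [map_add, map_smul, smul_eq_mul]
            linarith)
        rw [map_add, map_smul, smul_eq_mul] at h4
        simp only [LinearMap.add_apply, LinearMap.smul_apply, smul_eq_mul]
        linarith)
      refine ⟨fun i => if i = m then ∑ j ∈ s, w j * a j x₁ - b x₁ else w i, fun i => ?_, ?_⟩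
      · by_cases h : i = m
        · simp only [h, if_true]
          have : 0 ≤ ∑ j ∈ s, w j * a j x₁ :=
            Finset.sum_nonneg fun j hj => mul_nonneg (hw j) (h2 j hj)
          linarith
        · simp only [h, if_false]
          exact hw i
      · rw [Finset.sum_insert hm]
        simp only [if_true]
        have h6 : ∑ i ∈ s, (if i = m then ∑ j ∈ s, w j * a j x₁ - b x₁ else w i) • a i =
            ∑ i ∈ s, w i • a i := by
          apply Finset.sum_congr rfl
          intro i hi
          have h : i ≠ m := fun h => hm (h ▸ hi)
          rw [if_neg h]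
        rw [h6]
        have h7 : b = ∑ i ∈ s, w i • (a i + a i x₁ • a m) - b x₁ • a m := by
          rw [← hb]; abel
        conv_lhs => rw [h7]
        ext x
        simp only [LinearMap.sub_apply, LinearMap.add_apply, LinearMap.smul_apply, smul_eq_mul,
          LinearMap.sum_apply, mul_add, Finset.sum_add_distrib, Finset.sum_mul, sub_mul]
        have h8 : ∀ i, w i * (a i x₁ * a m x) = w i * a i x₁ * a m x := fun i => by ring
        simp only [h8]
        ring

end Pool.Agent.Helper88.CC
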