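import Mathlib

/-!
# Random order averages of superadditive set functions
-/

set_option autoImplicit false

namespace Pool.Agent.Helper88.CC

open Finset

variable {V : Type*} [DecidableEq V]

/-- The expected value of `g` at the set of elements of `C` which come before a marker in a
uniformly random order of `C` and the marker. -/
noncomputable def avg (g : Finset V → ℝ) : Finset V → ℝ
  | C => (g C + ∑ v ∈ C.attach, avg g (C.erase v.1)) / (C.card + 1)
termination_by C => C.card
decreasing_by exact Finset.card_erase_lt_of_mem v.2

theorem avg_eq (g : Finset V → ℝ) (C : Finset V) :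
    ((C.card : ℝ) + 1) * avg g C = g C + ∑ v ∈ C, avg g (C.erase v) := by
  rw [avg]
  have h : ((C.card : ℝ) + 1) ≠ 0 := by positivity
  rw [mul_div_cancel₀ _ h, Finset.sum_attach C (fun v => avg g (C.erase v))]

/-- Nonnegativity. -/
theorem avg_nonneg (g : Finset V → ℝ) (hg : ∀ C, 0 ≤ g C) : ∀ C, 0 ≤ avg g C := by
  intro C
  induction C using Finset.strongInduction with
  | H C ih =>
    have h := avg_eq g C
    have h1 : 0 ≤ ∑ v ∈ C, avg g (C.erase v) :=
      Finset.sum_nonneg fun v hv => ih _ (Finset.erase_ssubset hv)
    have h2 : (0 : ℝ) < (C.card : ℝ) + 1 := by positivity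
    have h3 := hg C
    by_contra hcon
    push Not at hcon
    have := mul_neg_of_pos_of_neg h2 hcon
    linarith

/-- Superadditivity. -/
theorem avg_super (g : Finset V → ℝ) (hg : ∀ P Q, Disjoint P Q → g P + g Q ≤ g (P ∪ Q)) :
    ∀ (m : ℕ) (C D : Finset V), Disjoint C D → C.card + D.card = m →
      avg g C + avg g D ≤ avg g (C ∪ D) := by
  intro m
  induction m with
  | zero =>
    intro C D hd hm
    have hC : C = ∅ := Finset.card_eq_zero.1 (by omega)
    have hD : D = ∅ := Finset.card_eq_zero.1 (by omega)
    subst hC; subst hD
    have h := avg_eq g (∅ : Finset V)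
    have h1 := hg ∅ ∅ (by simp)
    simp only [Finset.card_empty, Nat.cast_zero, Finset.sum_empty, Finset.union_empty] at h h1 ⊢
    linarith
  | succ m ih =>
    intro C D hd hm
    have h0 := avg_eq g (C ∪ D)
    have hC := avg_eq g C
    have hD := avg_eq g D
    have hcard : ((C ∪ D).card : ℝ) = C.card + D.card := by
      rw [Finset.card_union_of_disjoint hd]; push_cast; ring
    rw [Finset.sum_union hd] at h0
    have h1 : ∑ v ∈ C, (avg g (C.erase v) + avg g D) ≤ ∑ v ∈ C, avg g ((C ∪ D).erase v) := by
      apply Finset.sum_le_sum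
      intro v hv
      have hvD : v ∉ D := Finset.disjoint_left.1 hd hv
      have h2 : (C ∪ D).erase v = C.erase v ∪ D := by
        ext x
        simp only [Finset.mem_erase, Finset.mem_union]
        constructor
        · rintro ⟨hx, hx1 | hx1⟩
          · exact Or.inl ⟨hx, hx1⟩
          · exact Or.inr hx1
        · rintro (⟨hx, hx1⟩ | hx1)
          · exact ⟨hx, Or.inl hx1⟩
          · exact ⟨fun h => hvD (h ▸ hx1), Or.inr hx1⟩
      rw [h2]
      apply ih
      · exact Finset.disjoint_of_subset_left (Finset.erase_subset _ _) hd
      · rw [Finset.card_erase_of_mem hv]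
        have := Finset.card_pos.2 ⟨v, hv⟩
        omega
    have h1' : ∑ v ∈ D, (avg g C + avg g (D.erase v)) ≤ ∑ v ∈ D, avg g ((C ∪ D).erase v) := by
      apply Finset.sum_le_sum
      intro v hv
      have hvC : v ∉ C := Finset.disjoint_right.1 hd hv
      have h2 : (C ∪ D).erase v = C ∪ D.erase v := by
        ext x
        simp only [Finset.mem_erase, Finset.mem_union]
        constructor
        · rintro ⟨hx, hx1 | hx1⟩
          · exact Or.inl hx1
          · exact Or.inr ⟨hx, hx1⟩
        · rintro (hx1 | ⟨hx, hx1⟩)
          · exact ⟨fun h => hvC (h ▸ hx1), Or.inl hx1⟩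
          · exact ⟨hx, Or.inr hx1⟩
      rw [h2]
      apply ih
      · exact Finset.disjoint_of_subset_right (Finset.erase_subset _ _) hd
      · rw [Finset.card_erase_of_mem hv]
        have := Finset.card_pos.2 ⟨v, hv⟩
        omega
    rw [Finset.sum_add_distrib, Finset.sum_const, nsmul_eq_mul] at h1 h1'
    have h3 := hg C D hd
    rw [hcard] at h0
    have hpos : (0 : ℝ) < (C.card : ℝ) + D.card + 1 := by positivity
    have key : ((C.card : ℝ) + D.card + 1) * (avg g C + avg g D) ≤
        ((C.card : ℝ) + D.card + 1) * avg g (C ∪ D) := by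
      rw [h0]
      nlinarith [h1, h1', h3, hC, hD]
    exact le_of_mul_le_mul_left key hpos

theorem avg_super' (g : Finset V → ℝ) (hg : ∀ P Q, Disjoint P Q → g P + g Q ≤ g (P ∪ Q))
    (C D : Finset V) (h : Disjoint C D) : avg g C + avg g D ≤ avg g (C ∪ D) :=
  avg_super g hg _ C D h rfl

/-- A dummy element does not matter. -/
theorem avg_dummy (g : Finset V → ℝ) (k : V) (hg : ∀ C, g C = g (C.erase k)) :
    ∀ C, avg g C = avg g (C.erase k) := by
  intro C
  induction C using Finset.strongInduction with
  | H C ih =>
    by_cases hk : k ∈ C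
    · have h1 := avg_eq g C
      have h2 := avg_eq g (C.erase k)
      have hcard : (C.card : ℝ) = (C.erase k).card + 1 := by
        rw [← Finset.card_erase_add_one hk]; push_cast; rfl
      rw [← Finset.add_sum_erase C _ hk] at h1
      have h3 : ∑ v ∈ C.erase k, avg g (C.erase v) =
          ∑ v ∈ C.erase k, avg g ((C.erase k).erase v) := by
        apply Finset.sum_congr rfl
        intro v hv
        have hvC : v ∈ C := Finset.mem_of_mem_erase hv
        rw [ih (C.erase v) (Finset.erase_ssubset hvC), Finset.erase_right_comm]
      rw [h3, hg C] at h1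
      have h4 : ((C.card : ℝ) + 1) * avg g C = ((C.card : ℝ) + 1) * avg g (C.erase k) := by
        rw [h1, hcard]
        linarith
      have h5 : (0 : ℝ) < (C.card : ℝ) + 1 := by
        have := Nat.cast_nonneg (α := ℝ) C.card
        linarith
      exact mul_left_cancel₀ h5.ne' h4
    · rw [Finset.erase_eq_of_notMem hk]

/-- The pair estimate. -/
theorem avg_pair (g : Finset V → ℝ) (hg : ∀ C, 0 ≤ g C) (i j : V) :
    g {i, j} ≤ 3 * avg g {i, j} := by
  have h1 := avg_eq g {i, j}
  have h2 : 0 ≤ ∑ v ∈ ({i, j} : Finset V), avg g (({i, j} : Finset V).erase v) :=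
    Finset.sum_nonneg fun v _ => avg_nonneg g hg _
  have h3 : (({i, j} : Finset V).card : ℝ) ≤ 2 := by
    exact_mod_cast Finset.card_le_two
  have h4 := avg_nonneg g hg {i, j}
  nlinarith

/-- Shapley's formula. -/
theorem shapley (h : Finset V → ℝ) : ∀ C : Finset V,
    ∑ k ∈ C, avg (fun U => h (insert k U) - h (U.erase k)) (C.erase k) = h C - h ∅ := by
  intro C
  induction C using Finset.strongInduction with
  | H C ih =>
    rcases C.eq_empty_or_nonempty with hC | hC
    · subst hC; rw [Finset.sum_empty, sub_self]
    · have hn : (0 : ℝ) < C.card := by exact_mod_cast Finset.card_pos.2 hC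
      have h1 : ∀ k ∈ C, (C.card : ℝ) * avg (fun U => h (insert k U) - h (U.erase k)) (C.erase k) =
          (h C - h (C.erase k)) +
          ∑ v ∈ C.erase k, avg (fun U => h (insert k U) - h (U.erase k)) ((C.erase v).erase k) := by
        intro k hk
        have h2 := avg_eq (fun U => h (insert k U) - h (U.erase k)) (C.erase k)
        have hcard : (((C.erase k).card : ℝ) + 1) = C.card := by
          rw [← Finset.card_erase_add_one hk]; push_cast; ring
        rw [hcard] at h2
        rw [h2]
        have h3 : (C.erase k).erase k = C.erase k :=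
          Finset.erase_eq_of_notMem (Finset.notMem_erase k C)
        rw [Finset.insert_erase hk, h3]
        congr 1
        apply Finset.sum_congr rfl
        intro v _
        rw [Finset.erase_right_comm]
      have h4 : (C.card : ℝ) * ∑ k ∈ C, avg (fun U => h (insert k U) - h (U.erase k)) (C.erase k) =
          C.card * (h C - h ∅) := by
        rw [Finset.mul_sum, Finset.sum_congr rfl h1, Finset.sum_add_distrib]
        have h5 : ∑ k ∈ C, ∑ v ∈ C.erase k,
            avg (fun U => h (insert k U) - h (U.erase k)) ((C.erase v).erase k) =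
            ∑ v ∈ C, ∑ k ∈ C.erase v,
            avg (fun U => h (insert k U) - h (U.erase k)) ((C.erase v).erase k) := by
          apply Finset.sum_comm'
          intro x y
          simp only [Finset.mem_erase]
          tauto
        rw [h5]
        have h6 : ∑ v ∈ C, ∑ k ∈ C.erase v,
            avg (fun U => h (insert k U) - h (U.erase k)) ((C.erase v).erase k) =
            ∑ v ∈ C, (h (C.erase v) - h ∅) := by
          apply Finset.sum_congr rfl
          intro v hv
          exact ih _ (Finset.erase_ssubset hv)
        rw [h6, Finset.sum_sub_distrib, Finset.sum_sub_distrib, Finset.sum_const, Finset.sum_const,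
          nsmul_eq_mul, nsmul_eq_mul]
        ring
      exact mul_left_cancel₀ hn.ne' h4

end Pool.Agent.Helper88.CC
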