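import Pool.Agent.Helper88.CC.Defs
import Pool.Agent.Helper88.CC.Farkas

/-!
# F-curves and set functions
-/

set_option autoImplicit false

namespace Pool.Agent.Helper88.CC

open Finset Function

variable {n : ℕ}

theorem mem_block (f : Fin n → Fin 4) (X : Finset (Fin 4)) (i : Fin n) :
    i ∈ block f X ↔ f i ∈ X := by
  simp [block]

theorem block_compl (f : Fin n → Fin 4) (X : Finset (Fin 4)) : block f Xᶜ = (block f X)ᶜ := by
  ext i
  simp [mem_block]

theorem block_injective (f : Fin n → Fin 4) (hf : Surjective f) : Injective (block f) := by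
  intro X Y h
  ext a
  obtain ⟨i, rfl⟩ := hf a
  rw [← mem_block, ← mem_block, h]

theorem fcurve_compl (f : Fin n → Fin 4) (S : Finset (Fin n)) :
    fcurve f Sᶜ = fcurve f S := by
  classical
  have h1 : (∃ X : Finset (Fin 4), X.card = 2 ∧ Sᶜ = block f X) ↔
      (∃ X : Finset (Fin 4), X.card = 2 ∧ S = block f X) := by
    constructor
    · rintro ⟨X, hX, h⟩
      refine ⟨Xᶜ, by rw [Finset.card_compl, hX, Fintype.card_fin], ?_⟩
      rw [block_compl, ← h, compl_compl]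
    · rintro ⟨X, hX, h⟩
      refine ⟨Xᶜ, by rw [Finset.card_compl, hX, Fintype.card_fin], ?_⟩
      rw [block_compl, ← h]
  have h2 : (2 ≤ Sᶜ.card ∧ 2 ≤ Sᶜᶜ.card ∧ ∃ a : Fin 4, Sᶜ = block f {a} ∨ Sᶜᶜ = block f {a}) ↔
      (2 ≤ S.card ∧ 2 ≤ Sᶜ.card ∧ ∃ a : Fin 4, S = block f {a} ∨ Sᶜ = block f {a}) := by
    rw [compl_compl]
    constructor
    · rintro ⟨h1, h2, a, h3⟩
      exact ⟨h2, h1, a, h3.symm⟩
    · rintro ⟨h1, h2, a, h3⟩
      exact ⟨h2, h1, a, h3.symm⟩
  unfold fcurve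
  simp only [h1, h2]

/-- The weights of the sixteen unions of blocks. -/
def wt (X : Finset (Fin 4)) : ℝ :=
  if X.card = 2 then 1 else if X.card = 1 ∨ X.card = 3 then -1 else 0

theorem fcurve_block (f : Fin n → Fin 4) (hf : Surjective f) (X : Finset (Fin 4))
    (h1 : 2 ≤ (block f X).card) (h2 : 2 ≤ (block f X)ᶜ.card) :
    fcurve f (block f X) = wt X := by
  classical
  unfold fcurve wt
  have e1 : (∃ Y : Finset (Fin 4), Y.card = 2 ∧ block f X = block f Y) ↔ X.card = 2 := by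
    constructor
    · rintro ⟨Y, hY, h⟩
      rw [block_injective f hf h, hY]
    · intro h
      exact ⟨X, h, rfl⟩
  have e2 : (2 ≤ (block f X).card ∧ 2 ≤ (block f X)ᶜ.card ∧
      ∃ a : Fin 4, block f X = block f {a} ∨ (block f X)ᶜ = block f {a}) ↔
      (X.card = 1 ∨ X.card = 3) := by
    constructor
    · rintro ⟨_, _, a, h | h⟩
      · left
        rw [block_injective f hf h, Finset.card_singleton]
      · right
        rw [← block_compl] at h
        have h3 := block_injective f hf h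
        have h4 : X.card = (Xᶜᶜ).card := by rw [compl_compl]
        rw [h4, h3, Finset.card_compl, Finset.card_singleton, Fintype.card_fin]
    · rintro (h | h)
      · obtain ⟨a, ha⟩ := Finset.card_eq_one.1 h
        exact ⟨h1, h2, a, Or.inl (by rw [ha])⟩
      · have h3 : (Xᶜ).card = 1 := by rw [Finset.card_compl, h, Fintype.card_fin]
        obtain ⟨a, ha⟩ := Finset.card_eq_one.1 h3
        exact ⟨h1, h2, a, Or.inr (by rw [← block_compl, ha])⟩
  simp only [e1, e2]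

theorem fcurve_not_block (f : Fin n → Fin 4) (S : Finset (Fin n)) (hS : ∀ X, S ≠ block f X) :
    fcurve f S = 0 := by
  classical
  unfold fcurve
  rw [if_neg, if_neg]
  · rintro ⟨_, _, a, h | h⟩
    · exact hS _ h
    · apply hS ({a}ᶜ)
      rw [block_compl, ← h, compl_compl]
  · rintro ⟨X, _, h⟩
    exact hS _ h

/-- Evaluation of an F-curve on a function which vanishes on the improper sets. -/
theorem fcurve_sum (f : Fin n → Fin 4) (hf : Surjective f) (G : Finset (Fin n) → ℝ)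
    (hG : ∀ S, ¬ (2 ≤ S.card ∧ 2 ≤ Sᶜ.card) → G S = 0) :
    ∑ S, fcurve f S * G S = ∑ X, wt X * G (block f X) := by
  classical
  have h1 : ∑ X, wt X * G (block f X) = ∑ X, fcurve f (block f X) * G (block f X) := by
    apply Finset.sum_congr rfl
    intro X _
    by_cases h : 2 ≤ (block f X).card ∧ 2 ≤ (block f X)ᶜ.card
    · rw [fcurve_block f hf X h.1 h.2]
    · rw [hG _ h, mul_zero, mul_zero]
  rw [h1, ← Finset.sum_image (f := fun S => fcurve f S * G S) (g := block f)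
    (fun a _ b _ h => block_injective f hf h)]
  symm
  apply Finset.sum_subset (Finset.subset_univ _)
  intro S _ hS
  rw [fcurve_not_block f S, zero_mul]
  intro X h
  apply hS
  rw [Finset.mem_image]
  exact ⟨X, Finset.mem_univ _, h.symm⟩

theorem univ_four : (univ : Finset (Finset (Fin 4))) =
    {∅, {0}, {1}, {2}, {3}, {0, 1}, {0, 2}, {1, 2}, {0, 3}, {1, 3}, {2, 3},
      {0, 1, 2}, {0, 1, 3}, {0, 2, 3}, {1, 2, 3}, {0, 1, 2, 3}} := by
  decide

theorem sum_four (F : Finset (Fin 4) → ℝ) (hF : ∀ X, 3 ∈ X → F X = 0) :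
    ∑ X, wt X * F X = F {0, 1} + F {0, 2} + F {1, 2} - F {0} - F {1} - F {2} - F {0, 1, 2} := by
  rw [univ_four]
  repeat rw [Finset.sum_insert (by decide)]
  rw [Finset.sum_singleton]
  rw [hF {3} (by decide), hF {0, 3} (by decide), hF {1, 3} (by decide), hF {2, 3} (by decide),
    hF {0, 1, 3} (by decide), hF {0, 2, 3} (by decide), hF {1, 2, 3} (by decide),
    hF {0, 1, 2, 3} (by decide)]
  have w0 : wt ∅ = 0 := by unfold wt; rw [if_neg (by decide), if_neg (by decide)]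
  have w1 : wt {0} = -1 := by unfold wt; rw [if_neg (by decide), if_pos (by decide)]
  have w2 : wt {1} = -1 := by unfold wt; rw [if_neg (by decide), if_pos (by decide)]
  have w3 : wt {2} = -1 := by unfold wt; rw [if_neg (by decide), if_pos (by decide)]
  have w4 : wt {0, 1} = 1 := by unfold wt; rw [if_pos (by decide)]
  have w5 : wt {0, 2} = 1 := by unfold wt; rw [if_pos (by decide)]
  have w6 : wt {1, 2} = 1 := by unfold wt; rw [if_pos (by decide)]
  have w7 : wt {0, 1, 2} = -1 := by unfold wt; rw [if_neg (by decide), if_pos (by decide)]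
  rw [w0, w1, w2, w3, w4, w5, w6, w7]
  ring

/-- The inequality given by the F-curve of four blocks `A, B, C` and the rest. -/
theorem fcurve_third_difference (r : Fin n) (G : Finset (Fin n) → ℝ)
    (hG : ∀ S, ¬ (2 ≤ S.card ∧ 2 ≤ Sᶜ.card) → G S = 0) (hGr : ∀ S, r ∈ S → G S = 0)
    (hF : ∀ f : Fin n → Fin 4, Surjective f → 0 ≤ ∑ S, fcurve f S * G S)
    (A B C : Finset (Fin n)) (hA : A.Nonempty) (hB : B.Nonempty) (hC : C.Nonempty)
    (hAB : Disjoint A B) (hAC : Disjoint A C) (hBC : Disjoint B C)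
    (hrA : r ∉ A) (hrB : r ∉ B) (hrC : r ∉ C) :
    0 ≤ G (A ∪ B) + G (A ∪ C) + G (B ∪ C) - G A - G B - G C - G (A ∪ B ∪ C) := by
  classical
  set f : Fin n → Fin 4 := fun x => if x ∈ A then 0 else if x ∈ B then 1 else if x ∈ C then 2
    else 3 with hf
  have fA : ∀ x ∈ A, f x = 0 := fun x hx => by simp [hf, hx]
  have fB : ∀ x ∈ B, f x = 1 := fun x hx => by
    have : x ∉ A := Finset.disjoint_right.1 hAB hx
    simp [hf, hx, this]
  have fC : ∀ x ∈ C, f x = 2 := fun x hx => by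
    have h1 : x ∉ A := Finset.disjoint_right.1 hAC hx
    have h2 : x ∉ B := Finset.disjoint_right.1 hBC hx
    simp [hf, hx, h1, h2]
  have fR : ∀ x, x ∉ A → x ∉ B → x ∉ C → f x = 3 := fun x h1 h2 h3 => by
    simp [hf, h1, h2, h3]
  have hsurj : Surjective f := by
    intro a
    fin_cases a
    · obtain ⟨x, hx⟩ := hA
      exact ⟨x, fA x hx⟩
    · obtain ⟨x, hx⟩ := hB
      exact ⟨x, fB x hx⟩
    · obtain ⟨x, hx⟩ := hC
      exact ⟨x, fC x hx⟩
    · exact ⟨r, fR r hrA hrB hrC⟩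
  have h1 := hF f hsurj
  rw [fcurve_sum f hsurj G hG, sum_four (fun X => G (block f X)) (by
    intro X hX
    apply hGr
    rw [mem_block, fR r hrA hrB hrC]
    exact hX)] at h1
  have hval : ∀ x, (x ∈ A ∧ f x = 0) ∨ (x ∉ A ∧ x ∈ B ∧ f x = 1) ∨
      (x ∉ A ∧ x ∉ B ∧ x ∈ C ∧ f x = 2) ∨ (x ∉ A ∧ x ∉ B ∧ x ∉ C ∧ f x = 3) := by
    intro x
    by_cases ha : x ∈ A
    · exact Or.inl ⟨ha, fA x ha⟩
    · by_cases hb : x ∈ B
      · exact Or.inr (Or.inl ⟨ha, hb, fB x hb⟩)
      · by_cases hc : x ∈ C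
        · exact Or.inr (Or.inr (Or.inl ⟨ha, hb, hc, fC x hc⟩))
        · exact Or.inr (Or.inr (Or.inr ⟨ha, hb, hc, fR x ha hb hc⟩))
  have hB' : ∀ x, x ∈ A → x ∉ B := fun x hx => Finset.disjoint_left.1 hAB hx
  have hC' : ∀ x, x ∈ A → x ∉ C := fun x hx => Finset.disjoint_left.1 hAC hx
  have hC'' : ∀ x, x ∈ B → x ∉ C := fun x hx => Finset.disjoint_left.1 hBC hx
  have b01 : block f {0, 1} = A ∪ B := by
    ext x
    rw [mem_block, Finset.mem_union]
    rcases hval x with ⟨h1, h⟩ | ⟨h1, h2, h⟩ | ⟨h1, h2, h3, h⟩ | ⟨h1, h2, h3, h⟩ <;> rw [h]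
    · simp [h1]
    · simp [h2]
    · simp [h1, h2]
    · simp [h1, h2]
  have b02 : block f {0, 2} = A ∪ C := by
    ext x
    rw [mem_block, Finset.mem_union]
    rcases hval x with ⟨h1, h⟩ | ⟨h1, h2, h⟩ | ⟨h1, h2, h3, h⟩ | ⟨h1, h2, h3, h⟩ <;> rw [h]
    · simp [h1]
    · simp [h1, hC'' x h2]
    · simp [h3]
    · simp [h1, h3]
  have b12 : block f {1, 2} = B ∪ C := by
    ext x
    rw [mem_block, Finset.mem_union]
    rcases hval x with ⟨h1, h⟩ | ⟨h1, h2, h⟩ | ⟨h1, h2, h3, h⟩ | ⟨h1, h2, h3, h⟩ <;> rw [h]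
    · simp [hB' x h1, hC' x h1]
    · simp [h2]
    · simp [h3]
    · simp [h2, h3]
  have b0 : block f {0} = A := by
    ext x
    rw [mem_block]
    rcases hval x with ⟨h1, h⟩ | ⟨h1, h2, h⟩ | ⟨h1, h2, h3, h⟩ | ⟨h1, h2, h3, h⟩ <;> rw [h] <;>
      simp [h1]
  have b1 : block f {1} = B := by
    ext x
    rw [mem_block]
    rcases hval x with ⟨h1, h⟩ | ⟨h1, h2, h⟩ | ⟨h1, h2, h3, h⟩ | ⟨h1, h2, h3, h⟩ <;> rw [h]
    · simp [hB' x h1]
    · simp [h2]
    · simp [h2]
    · simp [h2]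
  have b2 : block f {2} = C := by
    ext x
    rw [mem_block]
    rcases hval x with ⟨h1, h⟩ | ⟨h1, h2, h⟩ | ⟨h1, h2, h3, h⟩ | ⟨h1, h2, h3, h⟩ <;> rw [h]
    · simp [hC' x h1]
    · simp [hC'' x h2]
    · simp [h3]
    · simp [h3]
  have b012 : block f {0, 1, 2} = A ∪ B ∪ C := by
    ext x
    rw [mem_block, Finset.mem_union, Finset.mem_union]
    rcases hval x with ⟨h1, h⟩ | ⟨h1, h2, h⟩ | ⟨h1, h2, h3, h⟩ | ⟨h1, h2, h3, h⟩ <;> rw [h]
    · simp [h1]
    · simp [h2]
    · simp [h3]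
    · simp [h1, h2, h3]
  simp only [b01, b02, b12, b0, b1, b2, b012] at h1
  exact h1

end Pool.Agent.Helper88.CC
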