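import Mathlib

/-!
# Curve classes and F-curves on the moduli space of stable n-pointed rational curves

A class `C` in `N_1` of the moduli space of stable `n`-pointed curves of genus zero is recorded by
its intersection numbers `c S = C · δ_S` with the boundary divisors, where the marked points are
the elements of `Fin n` and `δ_S = δ_{Sᶜ}` is the divisor of curves with a node separating `S`
from its complement (`2 ≤ |S| ≤ n - 2`). By Keel's theorem the boundary divisors generate the
Picard group and their relations are generated by the relations of `IsCurveClass`; so the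
functions `c` with `IsCurveClass c` are exactly the elements of `N_1` (with real coefficients).
-/

set_option autoImplicit false

namespace Pool.Agent.Helper88.CC

open Finset

/-- The vectors of intersection numbers of real one dimensional classes with the boundary
divisors. -/
structure IsCurveClass {n : ℕ} (c : Finset (Fin n) → ℝ) : Prop where
  /-- `δ_S` and `δ_{Sᶜ}` are the same divisor -/
  compl : ∀ S, c Sᶜ = c S
  /-- there is no divisor `δ_S` for `|S| ≤ 1` -/
  small : ∀ S, S.card ≤ 1 → c S = 0
  /-- Keel's linear relations -/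
  keel : ∀ i j k l : Fin n, i ≠ j → i ≠ k → i ≠ l → j ≠ k → j ≠ l → k ≠ l →
    ∑ S ∈ univ.filter (fun S => i ∈ S ∧ j ∈ S ∧ k ∉ S ∧ l ∉ S), c S =
      ∑ S ∈ univ.filter (fun S => i ∈ S ∧ k ∈ S ∧ j ∉ S ∧ l ∉ S), c S

/-- The block `f⁻¹(X)` of the marked points. -/
def block {n : ℕ} (f : Fin n → Fin 4) (X : Finset (Fin 4)) : Finset (Fin n) :=
  univ.filter (fun i => f i ∈ X)

/-- The intersection number of `δ_S` with the F-curve of the partition
`f⁻¹(0), f⁻¹(1), f⁻¹(2), f⁻¹(3)` of the marked points (`f` surjective): it is `1` if `S` is the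
union of two of the four blocks, `-1` if `S` or its complement is one of the four blocks (and
`2 ≤ |S| ≤ n - 2`), and `0` otherwise. -/
noncomputable def fcurve {n : ℕ} (f : Fin n → Fin 4) (S : Finset (Fin n)) : ℝ :=
  open Classical in
  if ∃ X : Finset (Fin 4), X.card = 2 ∧ S = block f X then 1
  else if 2 ≤ S.card ∧ 2 ≤ Sᶜ.card ∧ ∃ a : Fin 4, S = block f {a} ∨ Sᶜ = block f {a} then -1
  else 0

/-- The classes in the cone spanned by the F-curves. -/
def InFCone {n : ℕ} (c : Finset (Fin n) → ℝ) : Prop :=
  ∃ w : (Fin n → Fin 4) → ℝ, (∀ f, 0 ≤ w f) ∧ (∀ f, ¬ Function.Surjective f → w f = 0) ∧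
    ∀ S, c S = ∑ f, w f * fcurve f S

end Pool.Agent.Helper88.CC
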