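import Pool.Agent.Helper88.CC.Block

/-!
# The dual criterion for the F-cone
-/

set_option autoImplicit false

namespace Pool.Agent.Helper88.CC

open Finset Function

variable {n : ℕ}

/-- `S` is a proper subset in the sense that `δ_S` is a divisor. -/
def Proper (S : Finset (Fin n)) : Prop := 2 ≤ S.card ∧ 2 ≤ Sᶜ.card

theorem Proper.compl {S : Finset (Fin n)} : Proper Sᶜ ↔ Proper S := by
  unfold Proper
  rw [compl_compl]
  exact And.comm

/-- An F-nef divisor class, as a function on subsets. -/
structure FNef (K : Finset (Fin n) → ℝ) : Prop where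
  compl : ∀ S, K Sᶜ = K S
  improper : ∀ S, ¬ Proper S → K S = 0
  third : ∀ A B C : Finset (Fin n), A.Nonempty → B.Nonempty → C.Nonempty → Disjoint A B →
    Disjoint A C → Disjoint B C → A ∪ B ∪ C ≠ univ →
    0 ≤ K (A ∪ B) + K (A ∪ C) + K (B ∪ C) - K A - K B - K C - K (A ∪ B ∪ C)

theorem fcurve_improper (f : Fin n → Fin 4) (hf : Surjective f) (S : Finset (Fin n))
    (hS : ¬ Proper S) : fcurve f S = 0 := by
  classical
  by_cases h1 : ∃ X, S = block f X
  · obtain ⟨X, rfl⟩ := h1
    unfold fcurve
    rw [if_neg, if_neg (fun h => hS ⟨h.1, h.2.1⟩)]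
    rintro ⟨Y, hY, hXY⟩
    have hXY' := block_injective f hf hXY
    subst hXY'
    apply hS
    have hcardX : ∀ Z : Finset (Fin 4), Z.card = 2 → 2 ≤ (block f Z).card := by
      intro Z hZ
      obtain ⟨a, b, hab, rfl⟩ := Finset.card_eq_two.1 hZ
      obtain ⟨x, hx⟩ := hf a
      obtain ⟨y, hy⟩ := hf b
      have hxy : x ≠ y := fun h => hab (by rw [← hx, ← hy, h])
      have hsub : ({x, y} : Finset (Fin n)) ⊆ block f {a, b} := by
        intro z hz
        rw [Finset.mem_insert, Finset.mem_singleton] at hz
        rcases hz with h | h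
        · rw [h, mem_block, hx]; simp
        · rw [h, mem_block, hy]; simp
      calc 2 = ({x, y} : Finset (Fin n)).card := (Finset.card_pair hxy).symm
        _ ≤ _ := Finset.card_le_card hsub
    refine ⟨hcardX X hY, ?_⟩
    rw [← block_compl]
    apply hcardX
    rw [Finset.card_compl, hY, Fintype.card_fin]
  · push Not at h1
    exact fcurve_not_block f S h1

/-- Reindexing a sum over all subsets by complements. -/
theorem sum_compl (F : Finset (Fin n) → ℝ) : ∑ S, F Sᶜ = ∑ S, F S :=
  Equiv.sum_comp (⟨fun S => Sᶜ, fun S => Sᶜ, compl_compl, compl_compl⟩ :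
    Finset (Fin n) ≃ Finset (Fin n)) F

/-- Dual criterion. -/
theorem dual_criterion (c : Finset (Fin n) → ℝ) (hcompl : ∀ S, c Sᶜ = c S)
    (himp : ∀ S, ¬ Proper S → c S = 0)
    (H : ∀ K : Finset (Fin n) → ℝ, FNef K → 0 ≤ ∑ S, c S * K S) : InFCone c := by
  classical
  set s : Finset (Fin n → Fin 4) := univ.filter Surjective with hs
  obtain ⟨w, hw, hb⟩ := farkas (E := Finset (Fin n) → ℝ) s
    (fun f => ∑ S, fcurve f S • LinearMap.proj S)
    (∑ S, c S • LinearMap.proj S) (by
      intro D hD
      set K : Finset (Fin n) → ℝ := fun S => if Proper S then D S + D Sᶜ else 0 with hK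
      have hKc : ∀ S, K Sᶜ = K S := by
        intro S
        simp only [hK, Proper.compl, compl_compl, add_comm (D Sᶜ)]
      have hlin : ∀ u : Finset (Fin n) → ℝ, (∀ S, u Sᶜ = u S) → (∀ S, ¬ Proper S → u S = 0) →
          (∑ S, u S • (LinearMap.proj S : (Finset (Fin n) → ℝ) →ₗ[ℝ] ℝ)) D =
          (∑ S, u S * K S) / 2 := by
        intro u hu hui
        simp only [LinearMap.sum_apply, LinearMap.smul_apply, LinearMap.proj_apply, smul_eq_mul]
        have h1 : ∑ S, u S * K S = ∑ S, (u S * D S + u S * D Sᶜ) := by
          apply Finset.sum_congr rfl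
          intro S _
          simp only [hK]
          by_cases hS : Proper S
          · rw [if_pos hS]; ring
          · rw [if_neg hS, hui S hS]; ring
        have h2 : ∑ S, u S * D Sᶜ = ∑ S, u S * D S := by
          rw [← sum_compl (fun S => u S * D S)]
          apply Finset.sum_congr rfl
          intro S _
          rw [hu]
        rw [h1, Finset.sum_add_distrib, h2]
        ring
      rw [hlin c hcompl himp]
      have hFK : ∀ f : Fin n → Fin 4, Surjective f → 0 ≤ ∑ S, fcurve f S * K S := by
        intro f hf
        have h5 := hD f (by rw [hs, Finset.mem_filter]; exact ⟨Finset.mem_univ f, hf⟩)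
        rw [hlin (fcurve f) (fcurve_compl f) (fcurve_improper f hf)] at h5
        linarith
      have hKi : ∀ S, ¬ Proper S → K S = 0 := fun S hS => if_neg hS
      have hKnef : FNef K := by
        refine ⟨hKc, hKi, ?_⟩
        intro A B C hA hB hC hAB hAC hBC hne
        obtain ⟨r, hr⟩ : ∃ r, r ∉ A ∪ B ∪ C := by
          by_contra hcon
          push Not at hcon
          exact hne (Finset.eq_univ_iff_forall.2 hcon)
        simp only [Finset.mem_union, not_or] at hr
        obtain ⟨⟨hrA, hrB⟩, hrC⟩ := hr
        set G : Finset (Fin n) → ℝ := fun S => if r ∈ S then 0 else K S with hG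
        have h6 := fcurve_third_difference r G (fun S hS => by
          simp only [hG]
          split_ifs
          · rfl
          · exact hKi S hS) (fun S hS => if_pos hS) (fun f hf => by
            have h7 : ∑ S, fcurve f S * K S = 2 * ∑ S, fcurve f S * G S := by
              have h8 : ∑ S, fcurve f S * K S =
                  ∑ S, (fcurve f S * G S + fcurve f Sᶜ * G Sᶜ) := by
                apply Finset.sum_congr rfl
                intro S _
                simp only [hG, Finset.mem_compl]
                by_cases h : r ∈ S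
                · rw [if_pos h, if_neg (fun h' => h' h), fcurve_compl, hKc]; ring
                · rw [if_neg h, if_pos h]; ring
              rw [h8, Finset.sum_add_distrib, sum_compl (fun S => fcurve f S * G S)]
              ring
            have := hFK f hf
            rw [h7] at this
            linarith) A B C hA hB hC hAB hAC hBC hrA hrB hrC
        have g1 : G (A ∪ B) = K (A ∪ B) := if_neg (by simp [hrA, hrB])
        have g2 : G (A ∪ C) = K (A ∪ C) := if_neg (by simp [hrA, hrC])
        have g3 : G (B ∪ C) = K (B ∪ C) := if_neg (by simp [hrB, hrC])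
        have g4 : G A = K A := if_neg hrA
        have g5 : G B = K B := if_neg hrB
        have g6 : G C = K C := if_neg hrC
        have g7 : G (A ∪ B ∪ C) = K (A ∪ B ∪ C) := if_neg (by simp [hrA, hrB, hrC])
        rw [g1, g2, g3, g4, g5, g6, g7] at h6
        exact h6
      have := H K hKnef
      linarith)
  have hval : ∀ S, c S = ∑ f ∈ s, w f * fcurve f S := by
    intro S
    have h5 := congrArg (fun φ => φ (Pi.single S (1 : ℝ))) hb
    simp only [LinearMap.sum_apply, LinearMap.smul_apply, LinearMap.proj_apply, smul_eq_mul] at h5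
    have h6 : ∀ u : Finset (Fin n) → ℝ, ∑ S', u S' * (Pi.single S (1 : ℝ) : _ → ℝ) S' =
        u S := by
      intro u
      rw [Finset.sum_eq_single S]
      · rw [Pi.single_eq_same, mul_one]
      · intro S' _ hne
        rw [Pi.single_eq_of_ne hne, mul_zero]
      · intro h
        exact absurd (Finset.mem_univ S) h
    rw [h6] at h5
    rw [h5]
    apply Finset.sum_congr rfl
    intro f _
    rw [h6]
  refine ⟨fun f => if Surjective f then w f else 0, ?_, ?_, ?_⟩
  · intro f
    dsimp only
    split_ifs
    · exact hw f
    · exact le_refl _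
  · intro f hf
    exact if_neg hf
  · intro S
    rw [hval S, hs, Finset.sum_filter]
    apply Finset.sum_congr rfl
    intro f _
    dsimp only
    split_ifs
    · rfl
    · rw [zero_mul]

end Pool.Agent.Helper88.CC
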