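import Pool.Agent.Helper88.CC.Orbit

/-!
# The inequality for set functions with nonnegative third differences
-/

set_option autoImplicit false

namespace Pool.Agent.Helper88.CC

open Finset Function

variable {V : Type*} [DecidableEq V] [Fintype V]

/-- The bound for doubly stochastic matrices. -/
theorem birkhoff_bound (g : Finset V → ℝ) (hg0 : ∀ C, 0 ≤ g C)
    (hg : ∀ P Q, Disjoint P Q → g P + g Q ≤ g (P ∪ Q)) (T : V → V → ℝ)
    (hTd : ∀ v, T v v = 0) (hT : ∀ i j, T i j ≤ g {i, j})
    (X : Matrix V V ℝ) (hX : X ∈ doublyStochastic ℝ V) :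
    (1 / 6 : ℝ) * ∑ i, ∑ j, X i j * T i j ≤ avg g univ := by
  obtain ⟨w, hw0, hw1, hwX⟩ := exists_eq_sum_perm_of_mem_doublyStochastic hX
  have h1 : ∑ i, ∑ j, X i j * T i j = ∑ σ, w σ * ∑ i, T i (σ i) := by
    have h2 : ∀ i j, X i j * T i j = ∑ σ : Equiv.Perm V, w σ * (if σ i = j then T i j else 0) := by
      intro i j
      rw [← hwX, Matrix.sum_apply, Finset.sum_mul]
      apply Finset.sum_congr rfl
      intro σ _
      rw [Matrix.smul_apply, smul_eq_mul, mul_assoc]
      congr 1
      simp only [Equiv.Perm.permMatrix, PEquiv.toMatrix_apply, Equiv.toPEquiv_apply,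
        Option.mem_some_iff]
      split_ifs <;> simp
    simp only [h2]
    have h3 : ∀ i, ∑ j, ∑ σ : Equiv.Perm V, w σ * (if σ i = j then T i j else 0) =
        ∑ σ : Equiv.Perm V, w σ * T i (σ i) := by
      intro i
      rw [Finset.sum_comm]
      apply Finset.sum_congr rfl
      intro σ _
      rw [← Finset.mul_sum]
      congr 1
      rw [Finset.sum_ite_eq]
      simp
    simp only [h3]
    rw [Finset.sum_comm]
    simp only [Finset.mul_sum]
  rw [h1, Finset.mul_sum]
  calc ∑ σ, 1 / 6 * (w σ * ∑ i, T i (σ i))
      = ∑ σ, w σ * (1 / 6 * ∑ i, T i (σ i)) := by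
        apply Finset.sum_congr rfl
        intro σ _
        ring
    _ ≤ ∑ σ, w σ * avg g univ := by
        apply Finset.sum_le_sum
        intro σ _
        apply mul_le_mul_of_nonneg_left _ (hw0 σ)
        exact perm_bound g hg0 hg T hTd hT σ σ.injective univ
          (Finset.image_univ_of_surjective σ.surjective)
    _ = avg g univ := by rw [← Finset.sum_mul, hw1, one_mul]

/-- Ordered triples of distinct elements cover each three element set six times. -/
theorem sum_triples (F : Finset V → ℝ) :
    ∑ k, ∑ i, ∑ j, (if i ≠ j ∧ i ≠ k ∧ j ≠ k then F {k, i, j} else 0) =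
      6 * ∑ S ∈ powersetCard 3 (univ : Finset V), F S := by
  have key : ∀ k i j : V, (if i ≠ j ∧ i ≠ k ∧ j ≠ k then F {k, i, j} else 0) =
      ∑ S ∈ powersetCard 3 (univ : Finset V),
        (if k ∈ S then (if i ∈ S.erase k then (if j ∈ (S.erase k).erase i then F S else 0)
          else 0) else 0) := by
    intro k i j
    by_cases hd : i ≠ j ∧ i ≠ k ∧ j ≠ k
    · rw [if_pos hd]
      obtain ⟨h1, h2, h3⟩ := hd
      have hcard : ({k, i, j} : Finset V).card = 3 := by
        rw [Finset.card_eq_three]
        exact ⟨k, i, j, h2.symm, h3.symm, h1, rfl⟩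
      rw [Finset.sum_eq_single ({k, i, j} : Finset V)]
      · rw [if_pos (by simp), if_pos (by simp [h2]), if_pos (by simp [h3, h1.symm])]
      · intro S hS hne
        rw [Finset.mem_powersetCard] at hS
        split_ifs with ha hb hc
        · exfalso
          apply hne
          symm
          apply Finset.eq_of_subset_of_card_le
          · intro x hx
            simp only [Finset.mem_insert, Finset.mem_singleton] at hx
            rcases hx with h | h | h
            · rw [h]; exact ha
            · rw [h]; exact Finset.mem_of_mem_erase hb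
            · rw [h]; exact Finset.mem_of_mem_erase (Finset.mem_of_mem_erase hc)
          · rw [hcard, hS.2]
        · rfl
        · rfl
        · rfl
      · intro h
        exfalso
        apply h
        rw [Finset.mem_powersetCard]
        exact ⟨Finset.subset_univ _, hcard⟩
    · rw [if_neg hd]
      symm
      apply Finset.sum_eq_zero
      intro S _
      split_ifs with ha hb hc
      · exfalso
        apply hd
        refine ⟨fun h => ?_, (Finset.mem_erase.1 hb).1,
          (Finset.mem_erase.1 (Finset.mem_of_mem_erase hc)).1⟩
        exact (Finset.mem_erase.1 hc).1 h.symm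
      · rfl
      · rfl
      · rfl
  have h1 : ∑ k, ∑ i, ∑ j, (if i ≠ j ∧ i ≠ k ∧ j ≠ k then F {k, i, j} else 0) =
      ∑ S ∈ powersetCard 3 (univ : Finset V), ∑ k, ∑ i, ∑ j,
        (if k ∈ S then (if i ∈ S.erase k then (if j ∈ (S.erase k).erase i then F S else 0)
          else 0) else 0) := by
    have h2 : ∀ k i : V, ∑ j, (if i ≠ j ∧ i ≠ k ∧ j ≠ k then F {k, i, j} else 0) =
        ∑ S ∈ powersetCard 3 (univ : Finset V), ∑ j,
        (if k ∈ S then (if i ∈ S.erase k then (if j ∈ (S.erase k).erase i then F S else 0)
          else 0) else 0) := by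
      intro k i
      rw [Finset.sum_comm]
      exact Finset.sum_congr rfl fun j _ => key k i j
    have h3 : ∀ k : V, ∑ i, ∑ j, (if i ≠ j ∧ i ≠ k ∧ j ≠ k then F {k, i, j} else 0) =
        ∑ S ∈ powersetCard 3 (univ : Finset V), ∑ i, ∑ j,
        (if k ∈ S then (if i ∈ S.erase k then (if j ∈ (S.erase k).erase i then F S else 0)
          else 0) else 0) := by
      intro k
      rw [Finset.sum_congr rfl fun i _ => h2 k i]
      exact Finset.sum_comm
    rw [Finset.sum_congr rfl fun k _ => h3 k]
    exact Finset.sum_comm
  rw [h1, Finset.mul_sum]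
  apply Finset.sum_congr rfl
  intro S hS
  rw [Finset.mem_powersetCard] at hS
  have h4 : ∀ k : V, ∑ i, ∑ j,
        (if k ∈ S then (if i ∈ S.erase k then (if j ∈ (S.erase k).erase i then F S else 0)
          else 0) else 0) = if k ∈ S then 2 * F S else 0 := by
    intro k
    by_cases hk : k ∈ S
    · simp only [hk, if_true]
      have h5 : ∀ i : V, ∑ j,
        (if i ∈ S.erase k then (if j ∈ (S.erase k).erase i then F S else 0) else 0) =
          if i ∈ S.erase k then F S else 0 := by
        intro i
        by_cases hi : i ∈ S.erase k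
        · simp only [hi, if_true]
          rw [Finset.sum_ite_mem, Finset.univ_inter, Finset.sum_const,
            Finset.card_erase_of_mem hi, Finset.card_erase_of_mem hk, hS.2]
          simp
        · simp only [hi, if_false, Finset.sum_const_zero]
      simp only [h5]
      rw [Finset.sum_ite_mem, Finset.univ_inter, Finset.sum_const,
        Finset.card_erase_of_mem hk, hS.2]
      simp
    · simp only [hk, if_false, Finset.sum_const_zero]
  simp only [h4]
  rw [Finset.sum_ite_mem, Finset.univ_inter, Finset.sum_const, hS.2, nsmul_eq_mul]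
  push_cast
  ring

/-- The inequality. -/
theorem set_fun (h : Finset V → ℝ) (h2 : ∀ S : Finset V, S.card ≤ 2 → h S = 0)
    (h3 : ∀ A B C : Finset V, A.Nonempty → B.Nonempty → C.Nonempty → Disjoint A B →
      Disjoint A C → Disjoint B C →
      0 ≤ h (A ∪ B ∪ C) - h (A ∪ B) - h (A ∪ C) - h (B ∪ C) + h A + h B + h C)
    (c : Finset V → ℝ) (hc : ∀ S, 0 ≤ c S) (lam : ℝ) (hlam0 : 0 ≤ lam)
    (hlam : ∀ k i : V, i ≠ k → ∑ j, (if i ≠ j ∧ i ≠ k ∧ j ≠ k then c {k, i, j} else 0) ≤ lam) :
    ∑ S ∈ powersetCard 3 (univ : Finset V), c S * h S ≤ lam * h univ := by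
  have hempty : h ∅ = 0 := h2 ∅ (by simp)
  -- superadditivity of the derivative
  have hsup : ∀ k : V, ∀ P Q : Finset V, Disjoint P Q →
      (h (insert k P) - h (P.erase k)) + (h (insert k Q) - h (Q.erase k)) ≤
        h (insert k (P ∪ Q)) - h ((P ∪ Q).erase k) := by
    intro k P Q hPQ
    have e1 : ∀ U : Finset V, insert k U = insert k (U.erase k) := by
      intro U
      ext x
      simp only [Finset.mem_insert, Finset.mem_erase]
      tauto
    rw [e1 P, e1 Q, e1 (P ∪ Q), Finset.erase_union_distrib]
    have hd : Disjoint (P.erase k) (Q.erase k) :=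
      Finset.disjoint_of_subset_left (Finset.erase_subset _ _)
        (Finset.disjoint_of_subset_right (Finset.erase_subset _ _) hPQ)
    have hkP : k ∉ P.erase k := Finset.notMem_erase k P
    have hkQ : k ∉ Q.erase k := Finset.notMem_erase k Q
    generalize P.erase k = P' at hd hkP ⊢
    generalize Q.erase k = Q' at hd hkQ ⊢
    rcases P'.eq_empty_or_nonempty with hP | hP
    · subst hP
      have e2 : h (insert k ∅) = 0 := h2 _ (by simp)
      rw [Finset.empty_union, e2, hempty]
      linarith
    · rcases Q'.eq_empty_or_nonempty with hQ | hQ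
      · subst hQ
        have e2 : h (insert k ∅) = 0 := h2 _ (by simp)
        rw [Finset.union_empty, e2, hempty]
        linarith
      · have e3 := h3 P' Q' {k} hP hQ (Finset.singleton_nonempty k) hd
          (Finset.disjoint_singleton_right.2 hkP) (Finset.disjoint_singleton_right.2 hkQ)
        have e4 : h {k} = 0 := h2 _ (by simp)
        have e5 : ∀ U : Finset V, U ∪ {k} = insert k U := by
          intro U
          ext x
          simp only [Finset.mem_union, Finset.mem_singleton, Finset.mem_insert]
          tauto
        rw [e4, e5, e5, e5] at e3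
        linarith
  have hnn : ∀ k : V, ∀ U : Finset V, 0 ≤ h (insert k U) - h (U.erase k) := by
    intro k U
    induction U using Finset.induction_on with
    | empty =>
      have e1 : h (insert k ∅) = 0 := h2 _ (by simp)
      rw [e1, Finset.erase_empty, hempty]
      linarith
    | insert a s ha ih =>
      have e1 := hsup k {a} s (Finset.disjoint_singleton_left.2 ha)
      have e2 : h (insert k {a}) = 0 := h2 _ Finset.card_le_two
      have e3 : h (({a} : Finset V).erase k) = 0 :=
        h2 _ ((Finset.card_le_card (Finset.erase_subset _ _)).trans (by simp))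
      rw [e2, e3, ← Finset.insert_eq] at e1
      linarith
  rcases hlam0.eq_or_lt with hl | hl
  · -- lam = 0
    have hz : ∑ S ∈ powersetCard 3 (univ : Finset V), c S * h S = 0 := by
      apply Finset.sum_eq_zero
      intro S hS
      rw [Finset.mem_powersetCard] at hS
      obtain ⟨a, b, d, hab, had, hbd, rfl⟩ := Finset.card_eq_three.1 hS.2
      have e1 := hlam a b hab.symm
      have e2 : (if b ≠ d ∧ b ≠ a ∧ d ≠ a then c {a, b, d} else 0) ≤
          ∑ j, (if b ≠ j ∧ b ≠ a ∧ j ≠ a then c {a, b, j} else 0) := by
        apply Finset.single_le_sum (f := fun j => if b ≠ j ∧ b ≠ a ∧ j ≠ a then c {a, b, j} else 0)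
          _ (Finset.mem_univ d)
        intro j _
        split_ifs
        · exact hc _
        · exact le_refl _
      rw [if_pos ⟨hbd, hab.symm, had.symm⟩] at e2
      have e3 := hc {a, b, d}
      have e4 : c {a, b, d} = 0 := by linarith
      rw [e4, zero_mul]
    rw [hz, ← hl, zero_mul]
  · -- lam > 0
    have hk : ∀ k : V, (1 / 6 : ℝ) * ∑ i, ∑ j,
        (if i ≠ j ∧ i ≠ k ∧ j ≠ k then (c {k, i, j} / lam) * h {k, i, j} else 0) ≤
        avg (fun U => h (insert k U) - h (U.erase k)) univ := by
      intro k
      set Y : V → V → ℝ := fun i j => if i ≠ j ∧ i ≠ k ∧ j ≠ k then c {k, i, j} / lam else 0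
        with hY
      have hYs : ∀ i j, Y i j = Y j i := by
        intro i j
        simp only [hY]
        have e1 : ({k, i, j} : Finset V) = {k, j, i} := by
          rw [Finset.pair_comm]
        rw [e1]
        by_cases hd : i ≠ j ∧ i ≠ k ∧ j ≠ k
        · rw [if_pos hd, if_pos ⟨hd.1.symm, hd.2.2, hd.2.1⟩]
        · rw [if_neg hd, if_neg (fun hd' => hd ⟨hd'.1.symm, hd'.2.2, hd'.2.1⟩)]
      have hYd : ∀ i, Y i i = 0 := by
        intro i
        simp [hY]
      have hY0 : ∀ i j, 0 ≤ Y i j := by
        intro i j
        simp only [hY]
        split_ifs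
        · exact div_nonneg (hc _) hl.le
        · exact le_refl _
      have hY1 : ∀ i, ∑ j, Y i j ≤ 1 := by
        intro i
        by_cases hik : i = k
        · have : ∑ j, Y i j = 0 := by
            apply Finset.sum_eq_zero
            intro j _
            simp [hY, hik]
          rw [this]
          norm_num
        · have e1 := hlam k i hik
          have e2 : ∑ j, Y i j =
              (∑ j, (if i ≠ j ∧ i ≠ k ∧ j ≠ k then c {k, i, j} else 0)) / lam := by
            rw [Finset.sum_div]
            apply Finset.sum_congr rfl
            intro j _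
            simp only [hY]
            split_ifs
            · rfl
            · rw [zero_div]
          rw [e2, div_le_one hl]
          exact e1
      set X : Matrix V V ℝ := fun i j => if i = j then 1 - ∑ j', Y i j' else Y i j with hX
      have hXY : ∀ i j, X i j = Y i j + (if i = j then 1 - ∑ j', Y i j' else 0) := by
        intro i j
        simp only [hX]
        split_ifs with hij
        · rw [hij, hYd]
          ring
        · ring
      have hXds : X ∈ doublyStochastic ℝ V := by
        rw [mem_doublyStochastic_iff_sum]
        refine ⟨?_, ?_, ?_⟩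
        · intro i j
          rw [hXY]
          apply add_nonneg (hY0 i j)
          split_ifs
          · have := hY1 i
            linarith
          · exact le_refl _
        · intro i
          simp only [hXY]
          rw [Finset.sum_add_distrib, Finset.sum_ite_eq]
          simp
        · intro j
          simp only [hXY]
          rw [Finset.sum_add_distrib, Finset.sum_ite_eq']
          simp only [Finset.mem_univ, if_true]
          have : ∑ i, Y i j = ∑ i, Y j i := Finset.sum_congr rfl fun i _ => hYs i j
          rw [this]
          ring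
      set T : V → V → ℝ := fun i j => if i ≠ j ∧ i ≠ k ∧ j ≠ k then h {k, i, j} else 0 with hT
      have e1 := birkhoff_bound (fun U => h (insert k U) - h (U.erase k)) (hnn k) (hsup k) T
        (fun v => by simp [hT]) (by
          intro i j
          simp only [hT]
          split_ifs with hd
          · have e2 : h (({i, j} : Finset V).erase k) = 0 :=
              h2 _ ((Finset.card_le_card (Finset.erase_subset _ _)).trans Finset.card_le_two)
            rw [e2, sub_zero]
          · exact hnn k {i, j}) X hXds
      have e3 : ∑ i, ∑ j, X i j * T i j = ∑ i, ∑ j,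
          (if i ≠ j ∧ i ≠ k ∧ j ≠ k then (c {k, i, j} / lam) * h {k, i, j} else 0) := by
        apply Finset.sum_congr rfl
        intro i _
        apply Finset.sum_congr rfl
        intro j _
        simp only [hX, hT, hY]
        split_ifs with ha hb hc'
        · exact absurd ha hb.1
        · rw [mul_zero]
        · rfl
        · rw [mul_zero]
      rw [e3] at e1
      exact e1
    -- sum over k
    have hsh := shapley h univ
    rw [hempty, sub_zero] at hsh
    have hdum : ∀ k ∈ (univ : Finset V),
        avg (fun U => h (insert k U) - h (U.erase k)) (univ.erase k) =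
        avg (fun U => h (insert k U) - h (U.erase k)) univ := by
      intro k _
      symm
      apply avg_dummy (fun U => h (insert k U) - h (U.erase k)) k
      intro U
      have e1 : insert k (U.erase k) = insert k U := by
        ext x
        simp only [Finset.mem_insert, Finset.mem_erase]
        tauto
      have e2 : (U.erase k).erase k = U.erase k :=
        Finset.erase_eq_of_notMem (Finset.notMem_erase k U)
      rw [e1, e2]
    rw [Finset.sum_congr rfl hdum] at hsh
    have h5 : ∑ k : V, (1 / 6 : ℝ) * ∑ i, ∑ j,
        (if i ≠ j ∧ i ≠ k ∧ j ≠ k then (c {k, i, j} / lam) * h {k, i, j} else 0) ≤ h univ := by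
      rw [← hsh]
      exact Finset.sum_le_sum fun k _ => hk k
    rw [← Finset.mul_sum, sum_triples (fun S => (c S / lam) * h S)] at h5
    have h6 : ∑ S ∈ powersetCard 3 (univ : Finset V), c S / lam * h S =
        (∑ S ∈ powersetCard 3 (univ : Finset V), c S * h S) / lam := by
      rw [Finset.sum_div]
      apply Finset.sum_congr rfl
      intro S _
      ring
    rw [h6] at h5
    have h7 : (∑ S ∈ powersetCard 3 (univ : Finset V), c S * h S) / lam ≤ h univ := by
      linarith
    rw [div_le_iff₀ hl] at h7
    linarith

end Pool.Agent.Helper88.CC
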