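import Pool.Agent.Helper88.CC.Block
import Pool.Agent.Helper88.CC.SetFun

/-!
# Classes whose rooted strata have size at most three
-/

set_option autoImplicit false

namespace Pool.Agent.Helper88.CC

open Finset Function

variable {n : ℕ}

/-- Pair sums of a curve class with respect to a root are constant. -/
theorem pair_sums (hn : 4 ≤ n) (r : Fin n) (c : Finset (Fin n) → ℝ) (hc : IsCurveClass c) :
    ∃ lam : ℝ, ∀ i j : Fin n, i ≠ j → i ≠ r → j ≠ r →
      ∑ S ∈ univ.filter (fun S => i ∈ S ∧ j ∈ S ∧ r ∉ S), c S = lam := by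
  classical
  have hsymm : ∀ i j : Fin n, ∑ S ∈ univ.filter (fun S => i ∈ S ∧ j ∈ S ∧ r ∉ S), c S =
      ∑ S ∈ univ.filter (fun S => j ∈ S ∧ i ∈ S ∧ r ∉ S), c S := by
    intro i j
    congr 1
    ext S
    simp only [Finset.mem_filter, Finset.mem_univ, true_and]
    tauto
  have hstep : ∀ i j k : Fin n, i ≠ j → i ≠ k → i ≠ r → j ≠ k → j ≠ r → k ≠ r →
      ∑ S ∈ univ.filter (fun S => i ∈ S ∧ j ∈ S ∧ r ∉ S), c S =
      ∑ S ∈ univ.filter (fun S => i ∈ S ∧ k ∈ S ∧ r ∉ S), c S := by
    intro i j k hij hik hir hjk hjr hkr
    have h1 := hc.keel i j k r hij hik hir hjk hjr hkr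
    have h2 : ∑ S ∈ univ.filter (fun S => i ∈ S ∧ j ∈ S ∧ r ∉ S), c S =
        ∑ S ∈ univ.filter (fun S => i ∈ S ∧ j ∈ S ∧ k ∈ S ∧ r ∉ S), c S +
        ∑ S ∈ univ.filter (fun S => i ∈ S ∧ j ∈ S ∧ k ∉ S ∧ r ∉ S), c S := by
      rw [← Finset.sum_filter_add_sum_filter_not _ (fun S => k ∈ S), Finset.filter_filter,
        Finset.filter_filter]
      congr 1
      · congr 1
        ext S
        simp only [Finset.mem_filter, Finset.mem_univ, true_and]
        tauto
      · congr 1
        ext S
        simp only [Finset.mem_filter, Finset.mem_univ, true_and]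
        tauto
    have h3 : ∑ S ∈ univ.filter (fun S => i ∈ S ∧ k ∈ S ∧ r ∉ S), c S =
        ∑ S ∈ univ.filter (fun S => i ∈ S ∧ j ∈ S ∧ k ∈ S ∧ r ∉ S), c S +
        ∑ S ∈ univ.filter (fun S => i ∈ S ∧ k ∈ S ∧ j ∉ S ∧ r ∉ S), c S := by
      rw [← Finset.sum_filter_add_sum_filter_not _ (fun S => j ∈ S), Finset.filter_filter,
        Finset.filter_filter]
      congr 1
      · congr 1
        ext S
        simp only [Finset.mem_filter, Finset.mem_univ, true_and]
        tauto
      · congr 1
        ext S
        simp only [Finset.mem_filter, Finset.mem_univ, true_and]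
        tauto
    rw [h2, h3, h1]
  -- three points different from the root
  have hcard : 3 ≤ ((univ : Finset (Fin n)).erase r).card := by
    rw [Finset.card_erase_of_mem (Finset.mem_univ r), Finset.card_univ, Fintype.card_fin]
    omega
  obtain ⟨a, b, hab⟩ : ∃ a b : Fin n, a ≠ r ∧ b ≠ r ∧ a ≠ b := by
    obtain ⟨a, ha, b, hb, hab⟩ := Finset.one_lt_card.1 (show 1 < _ from by
      have := hcard
      omega : 1 < ((univ : Finset (Fin n)).erase r).card)
    exact ⟨a, b, (Finset.mem_erase.1 ha).1, (Finset.mem_erase.1 hb).1, hab⟩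
  obtain ⟨har, hbr, hab⟩ := hab
  refine ⟨∑ S ∈ univ.filter (fun S => a ∈ S ∧ b ∈ S ∧ r ∉ S), c S, ?_⟩
  have hanchor : ∀ j : Fin n, j ≠ r → j ≠ a →
      ∑ S ∈ univ.filter (fun S => a ∈ S ∧ j ∈ S ∧ r ∉ S), c S =
      ∑ S ∈ univ.filter (fun S => a ∈ S ∧ b ∈ S ∧ r ∉ S), c S := by
    intro j hjr hja
    by_cases hjb : j = b
    · rw [hjb]
    · exact hstep a j b hja.symm hab har hjb hjr hbr
  intro i j hij hir hjr
  by_cases hia : i = a
  · rw [hia]
    exact hanchor j hjr (fun h => hij (hia.trans h.symm))
  · by_cases hja : j = a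
    · rw [hja, hsymm]
      exact hanchor i hir hia
    · rw [hstep i j a hij hia hir hja hjr har, hsymm]
      exact hanchor i hir hia

/-- The inequality for the set function of a divisor. -/
theorem divisor_bound (hn : 4 ≤ n) (r : Fin n) (c : Finset (Fin n) → ℝ) (hc : IsCurveClass c)
    (h0 : ∀ S, 0 ≤ c S) (h4 : ∀ S, r ∉ S → 4 ≤ S.card → c S = 0)
    (G : Finset (Fin n) → ℝ)
    (hG : ∀ S, ¬ (2 ≤ S.card ∧ 2 ≤ Sᶜ.card) → G S = 0) (hGr : ∀ S, r ∈ S → G S = 0)
    (hF : ∀ f : Fin n → Fin 4, Surjective f → 0 ≤ ∑ S, fcurve f S * G S) :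
    0 ≤ ∑ S, c S * G S := by
  classical
  obtain ⟨lam, hlam⟩ := pair_sums hn r c hc
  have hlam0 : 0 ≤ lam := by
    have hcard : 1 < ((univ : Finset (Fin n)).erase r).card := by
      rw [Finset.card_erase_of_mem (Finset.mem_univ r), Finset.card_univ, Fintype.card_fin]
      omega
    obtain ⟨a, ha, b, hb, hab⟩ := Finset.one_lt_card.1 hcard
    rw [← hlam a b hab (Finset.mem_erase.1 ha).1 (Finset.mem_erase.1 hb).1]
    exact Finset.sum_nonneg fun S _ => h0 S
  set d : Fin n → Fin n → ℝ := fun i j => if i = j then 0 else G {i, j} with hd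
  have hds : ∀ i j, d i j = d j i := by
    intro i j
    simp only [hd]
    by_cases h : i = j
    · rw [if_pos h, if_pos h.symm]
    · rw [if_neg h, if_neg (fun h' => h h'.symm), Finset.pair_comm]
  set Q : Finset (Fin n) → ℝ := fun S => ∑ i ∈ S, ∑ j ∈ S, d i j with hQ
  set h : Finset (Fin n) → ℝ := fun S => Q (S.erase r) / 2 - G (S.erase r) with hh
  -- small sets
  have hsmall' : ∀ S : Finset (Fin n), S.card ≤ 2 → Q S / 2 - G S = 0 := by
    intro S hS
    rcases Nat.lt_or_ge S.card 2 with h1 | h1
    · have hG0 : G S = 0 := hG S (fun h => by omega)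
      have hQ0 : Q S = 0 := by
        have h2 : S.card ≤ 1 := by omega
        rw [Finset.card_le_one] at h2
        simp only [hQ]
        apply Finset.sum_eq_zero
        intro i hi
        apply Finset.sum_eq_zero
        intro j hj
        simp only [hd]
        rw [if_pos (h2 i hi j hj)]
      rw [hG0, hQ0]
      norm_num
    · have h2 : S.card = 2 := by omega
      obtain ⟨a, b, hab, rfl⟩ := Finset.card_eq_two.1 h2
      simp only [hQ]
      rw [Finset.sum_pair hab, Finset.sum_pair hab, Finset.sum_pair hab]
      have d1 : d a a = 0 := if_pos rfl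
      have d2 : d b b = 0 := if_pos rfl
      have d3 : d a b = G {a, b} := if_neg hab
      rw [hds b a, d1, d2, d3]
      ring
  have hsmall : ∀ S : Finset (Fin n), S.card ≤ 2 → h S = 0 := by
    intro S hS
    exact hsmall' _ ((Finset.card_le_card (Finset.erase_subset _ _)).trans hS)
  -- third differences
  have hQ3 : ∀ A B C : Finset (Fin n), Disjoint A B → Disjoint A C → Disjoint B C →
      Q (A ∪ B ∪ C) - Q (A ∪ B) - Q (A ∪ C) - Q (B ∪ C) + Q A + Q B + Q C = 0 := by
    intro A B C hAB hAC hBC
    have hABC : Disjoint (A ∪ B) C := by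
      rw [Finset.disjoint_union_left]
      exact ⟨hAC, hBC⟩
    simp only [hQ]
    simp only [Finset.sum_union hABC, Finset.sum_union hAB, Finset.sum_union hAC,
      Finset.sum_union hBC, Finset.sum_add_distrib]
    ring
  have h3 : ∀ A B C : Finset (Fin n), A.Nonempty → B.Nonempty → C.Nonempty → Disjoint A B →
      Disjoint A C → Disjoint B C →
      0 ≤ h (A ∪ B ∪ C) - h (A ∪ B) - h (A ∪ C) - h (B ∪ C) + h A + h B + h C := by
    intro A B C _ _ _ hAB hAC hBC
    simp only [hh, Finset.erase_union_distrib]
    have hAB' : Disjoint (A.erase r) (B.erase r) :=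
      Finset.disjoint_of_subset_left (Finset.erase_subset _ _)
        (Finset.disjoint_of_subset_right (Finset.erase_subset _ _) hAB)
    have hAC' : Disjoint (A.erase r) (C.erase r) :=
      Finset.disjoint_of_subset_left (Finset.erase_subset _ _)
        (Finset.disjoint_of_subset_right (Finset.erase_subset _ _) hAC)
    have hBC' : Disjoint (B.erase r) (C.erase r) :=
      Finset.disjoint_of_subset_left (Finset.erase_subset _ _)
        (Finset.disjoint_of_subset_right (Finset.erase_subset _ _) hBC)
    have hrA : r ∉ A.erase r := Finset.notMem_erase r A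
    have hrB : r ∉ B.erase r := Finset.notMem_erase r B
    have hrC : r ∉ C.erase r := Finset.notMem_erase r C
    have hGe : G ∅ = 0 := hG ∅ (by simp)
    have hQe : Q ∅ = 0 := by simp [hQ]
    generalize A.erase r = A' at hAB' hAC' hrA ⊢
    generalize B.erase r = B' at hAB' hBC' hrB ⊢
    generalize C.erase r = C' at hAC' hBC' hrC ⊢
    rcases A'.eq_empty_or_nonempty with hA | hA
    · subst hA
      simp only [Finset.empty_union, hGe, hQe]
      linarith
    rcases B'.eq_empty_or_nonempty with hB | hB
    · subst hB
      simp only [Finset.empty_union, Finset.union_empty, hGe, hQe]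
      linarith
    rcases C'.eq_empty_or_nonempty with hC | hC
    · subst hC
      simp only [Finset.union_empty, hGe, hQe]
      linarith
    have e1 := fcurve_third_difference r G hG hGr hF A' B' C' hA hB hC hAB' hAC' hBC' hrA hrB hrC
    have e2 := hQ3 A' B' C' hAB' hAC' hBC'
    linarith
  -- the coefficients
  set c' : Finset (Fin n) → ℝ := fun S => if r ∈ S then 0 else c S with hc'
  have hc'0 : ∀ S, 0 ≤ c' S := by
    intro S
    simp only [hc']
    split_ifs
    · exact le_refl _
    · exact h0 S
  have hlam' : ∀ k i : Fin n, i ≠ k →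
      ∑ j, (if i ≠ j ∧ i ≠ k ∧ j ≠ k then c' {k, i, j} else 0) ≤ lam := by
    intro k i hik
    by_cases hkr : k = r
    · have : ∑ j, (if i ≠ j ∧ i ≠ k ∧ j ≠ k then c' {k, i, j} else 0) = 0 := by
        apply Finset.sum_eq_zero
        intro j _
        have : c' {k, i, j} = 0 := by
          simp only [hc']
          rw [if_pos (by rw [hkr]; simp)]
        rw [this]
        split_ifs <;> rfl
      rw [this]
      exact hlam0
    by_cases hir : i = r
    · have : ∑ j, (if i ≠ j ∧ i ≠ k ∧ j ≠ k then c' {k, i, j} else 0) = 0 := by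
        apply Finset.sum_eq_zero
        intro j _
        have : c' {k, i, j} = 0 := by
          simp only [hc']
          rw [if_pos (by rw [hir]; simp)]
        rw [this]
        split_ifs <;> rfl
      rw [this]
      exact hlam0
    rw [← hlam k i hik.symm hkr hir]
    set J : Finset (Fin n) := univ.filter (fun j => i ≠ j ∧ j ≠ k ∧ j ≠ r) with hJ
    have e1 : ∑ j, (if i ≠ j ∧ i ≠ k ∧ j ≠ k then c' {k, i, j} else 0) =
        ∑ j ∈ J, c {k, i, j} := by
      rw [hJ, Finset.sum_filter]
      apply Finset.sum_congr rfl
      intro j _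
      by_cases h1 : i ≠ j ∧ i ≠ k ∧ j ≠ k
      · rw [if_pos h1]
        by_cases h2 : j = r
        · rw [if_neg (fun h => h.2.2 h2)]
          simp only [hc']
          rw [if_pos (by rw [h2]; simp)]
        · rw [if_pos ⟨h1.1, h1.2.2, h2⟩]
          simp only [hc']
          rw [if_neg]
          simp only [Finset.mem_insert, Finset.mem_singleton, not_or]
          exact ⟨fun h => hkr h.symm, fun h => hir h.symm, fun h => h2 h.symm⟩
      · rw [if_neg h1, if_neg (fun h => h1 ⟨h.1, hik, h.2.1⟩)]
    rw [e1, ← Finset.sum_image (f := c) (g := fun j => ({k, i, j} : Finset (Fin n)))]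
    · apply Finset.sum_le_sum_of_subset_of_nonneg
      · intro S hS
        obtain ⟨j, hj, rfl⟩ := Finset.mem_image.1 hS
        rw [hJ, Finset.mem_filter] at hj
        rw [Finset.mem_filter]
        refine ⟨Finset.mem_univ _, by simp, by simp, ?_⟩
        simp only [Finset.mem_insert, Finset.mem_singleton, not_or]
        exact ⟨fun h => hkr h.symm, fun h => hir h.symm, fun h => hj.2.2.2 h.symm⟩
      · intro S _ _
        exact h0 S
    · intro a ha b hb hab
      rw [hJ] at ha hb
      simp only [Finset.coe_filter, Finset.mem_univ, true_and, Set.mem_ofPred_eq] at ha hb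
      simp only at hab
      have : a ∈ ({k, i, b} : Finset (Fin n)) := by rw [← hab]; simp
      simp only [Finset.mem_insert, Finset.mem_singleton] at this
      rcases this with h | h | h
      · exact absurd h ha.2.1
      · exact absurd h.symm ha.1
      · exact h
  have hmain := set_fun h hsmall h3 c' hc'0 lam hlam0 hlam'
  -- compare both sides
  have hR : ∀ S : Finset (Fin n), r ∉ S → S.erase r = S := fun S hS =>
    Finset.erase_eq_of_notMem hS
  have e1 : ∑ S ∈ powersetCard 3 (univ : Finset (Fin n)), c' S * h S =
      ∑ S ∈ univ.filter (fun S => r ∉ S), c S * (Q S / 2 - G S) := by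
    have e2 : ∑ S ∈ powersetCard 3 (univ : Finset (Fin n)), c' S * h S =
        ∑ S, c' S * h S := by
      apply Finset.sum_subset (Finset.subset_univ _)
      intro S _ hS
      rw [Finset.mem_powersetCard] at hS
      by_cases hrS : r ∈ S
      · simp only [hc']
        rw [if_pos hrS, zero_mul]
      · rcases Nat.lt_or_ge 3 S.card with h5 | h5
        · simp only [hc']
          rw [if_neg hrS, h4 S hrS h5, zero_mul]
        · have h6 : S.card ≠ 3 := fun h => hS ⟨Finset.subset_univ _, h⟩
          rw [hsmall S (by omega), mul_zero]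
    rw [e2, Finset.sum_filter]
    apply Finset.sum_congr rfl
    intro S _
    by_cases hrS : r ∈ S
    · rw [if_neg (fun h => h hrS)]
      simp only [hc']
      rw [if_pos hrS, zero_mul]
    · rw [if_pos hrS]
      simp only [hc', hh]
      rw [if_neg hrS, hR S hrS]
  have e3 : ∑ S, c S * G S = ∑ S ∈ univ.filter (fun S => r ∉ S), c S * G S := by
    rw [Finset.sum_filter]
    apply Finset.sum_congr rfl
    intro S _
    by_cases hrS : r ∈ S
    · rw [if_neg (fun h => h hrS), hGr S hrS, mul_zero]
    · rw [if_pos hrS]
  have e4 : h univ = Q (univ.erase r) / 2 := by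
    have : G (univ.erase r) = 0 := by
      apply hG
      rintro ⟨_, h2⟩
      rw [Finset.card_compl, Finset.card_erase_of_mem (Finset.mem_univ r), Finset.card_univ,
        Fintype.card_fin] at h2
      omega
    simp only [hh]
    rw [this, sub_zero]
  have e5 : ∑ S ∈ univ.filter (fun S => r ∉ S), c S * Q S = lam * Q (univ.erase r) := by
    have e6 : ∀ S ∈ (univ.filter (fun S : Finset (Fin n) => r ∉ S)), c S * Q S =
        ∑ i ∈ univ.erase r, ∑ j ∈ univ.erase r, (if i ∈ S ∧ j ∈ S then c S * d i j else 0) := by
      intro S hS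
      rw [Finset.mem_filter] at hS
      have hsub : S ⊆ univ.erase r := by
        intro x hx
        rw [Finset.mem_erase]
        exact ⟨fun h => hS.2 (h ▸ hx), Finset.mem_univ x⟩
      simp only [hQ]
      rw [Finset.mul_sum]
      rw [← Finset.sum_subset hsub (f := fun i => ∑ j ∈ univ.erase r,
        (if i ∈ S ∧ j ∈ S then c S * d i j else 0))]
      · apply Finset.sum_congr rfl
        intro i hi
        rw [Finset.mul_sum]
        rw [← Finset.sum_subset hsub (f := fun j =>
          (if i ∈ S ∧ j ∈ S then c S * d i j else 0))]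
        · apply Finset.sum_congr rfl
          intro j hj
          rw [if_pos ⟨hi, hj⟩]
        · intro j _ hj
          rw [if_neg (fun h => hj h.2)]
      · intro i _ hi
        apply Finset.sum_eq_zero
        intro j _
        rw [if_neg (fun h => hi h.1)]
    rw [Finset.sum_congr rfl e6, Finset.sum_comm]
    simp only [hQ]
    rw [Finset.mul_sum]
    apply Finset.sum_congr rfl
    intro i hi
    rw [Finset.sum_comm, Finset.mul_sum]
    apply Finset.sum_congr rfl
    intro j hj
    by_cases hij : i = j
    · have : d i j = 0 := by simp only [hd]; rw [if_pos hij]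
      rw [this, mul_zero]
      apply Finset.sum_eq_zero
      intro S _
      rw [mul_zero]
      split_ifs <;> rfl
    · rw [← hlam i j hij (Finset.mem_erase.1 hi).1 (Finset.mem_erase.1 hj).1, Finset.sum_mul,
        ← Finset.sum_filter, Finset.filter_filter]
      apply Finset.sum_congr _ (fun _ _ => rfl)
      ext S
      simp only [Finset.mem_filter, Finset.mem_univ, true_and]
      tauto
  rw [e1, e4] at hmain
  have e7 : ∑ S ∈ univ.filter (fun S => r ∉ S), c S * (Q S / 2 - G S) =
      (∑ S ∈ univ.filter (fun S => r ∉ S), c S * Q S) / 2 -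
        ∑ S ∈ univ.filter (fun S => r ∉ S), c S * G S := by
    rw [Finset.sum_div, ← Finset.sum_sub_distrib]
    apply Finset.sum_congr rfl
    intro S _
    ring
  rw [e7, e5] at hmain
  rw [e3]
  linarith

/-- The main theorem. -/
theorem main (hn : 4 ≤ n) (r : Fin n) (c : Finset (Fin n) → ℝ) (hc : IsCurveClass c)
    (h0 : ∀ S, 0 ≤ c S) (h4 : ∀ S, r ∉ S → 4 ≤ S.card → c S = 0) : InFCone c := by
  classical
  set s : Finset (Fin n → Fin 4) := univ.filter Surjective with hs
  set P : Finset (Finset (Fin n)) := univ.filter (fun S => r ∉ S ∧ 2 ≤ S.card ∧ 2 ≤ Sᶜ.card)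
    with hP
  obtain ⟨w, hw, hb⟩ := farkas (E := Finset (Fin n) → ℝ) s
    (fun f => ∑ S ∈ P, fcurve f S • LinearMap.proj S)
    (∑ S ∈ P, c S • LinearMap.proj S) (by
      intro D hD
      set G : Finset (Fin n) → ℝ := fun S => if S ∈ P then D S else 0 with hGdef
      have hsum : ∀ u : Finset (Fin n) → ℝ, ∑ S ∈ P, u S * D S = ∑ S, u S * G S := by
        intro u
        have : P = univ.filter (fun S => S ∈ P) := by
          ext S
          simp
        rw [this, Finset.sum_filter]
        apply Finset.sum_congr rfl
        intro S _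
        simp only [hGdef]
        by_cases h : S ∈ P
        · rw [if_pos h, if_pos h]
        · rw [if_neg h, if_neg h, mul_zero]
      have hlin : ∀ u : Finset (Fin n) → ℝ,
          (∑ S ∈ P, u S • (LinearMap.proj S : (Finset (Fin n) → ℝ) →ₗ[ℝ] ℝ)) D =
          ∑ S, u S * G S := by
        intro u
        rw [← hsum]
        simp only [LinearMap.sum_apply, LinearMap.smul_apply, LinearMap.proj_apply, smul_eq_mul]
      rw [hlin]
      apply divisor_bound hn r c hc h0 h4 G
      · intro S hS
        simp only [hGdef]
        rw [if_neg]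
        intro h
        rw [hP, Finset.mem_filter] at h
        exact hS ⟨h.2.2.1, h.2.2.2⟩
      · intro S hS
        simp only [hGdef]
        rw [if_neg]
        intro h
        rw [hP, Finset.mem_filter] at h
        exact h.2.1 hS
      · intro f hf
        have h5 := hD f (by rw [hs, Finset.mem_filter]; exact ⟨Finset.mem_univ f, hf⟩)
        rw [hlin] at h5
        exact h5)
  have hval : ∀ S ∈ P, c S = ∑ f ∈ s, w f * fcurve f S := by
    intro S hS
    have h5 := congrArg (fun φ => φ (Pi.single S (1 : ℝ))) hb
    simp only [LinearMap.sum_apply, LinearMap.smul_apply, LinearMap.proj_apply, smul_eq_mul] at h5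
    have h6 : ∀ u : Finset (Fin n) → ℝ, ∑ S' ∈ P, u S' * (Pi.single S (1 : ℝ) : _ → ℝ) S' =
        u S := by
      intro u
      rw [Finset.sum_eq_single S]
      · rw [Pi.single_eq_same, mul_one]
      · intro S' _ hne
        rw [Pi.single_eq_of_ne hne, mul_zero]
      · intro h
        exact absurd hS h
    rw [h6] at h5
    rw [h5]
    apply Finset.sum_congr rfl
    intro f _
    rw [h6]
  refine ⟨fun f => if Surjective f then w f else 0, ?_, ?_, ?_⟩
  · intro f
    dsimp only
    split_ifs
    · exact hw f
    · exact le_refl _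
  · intro f hf
    exact if_neg hf
  · have hsums : ∀ S, ∑ f, (if Surjective f then w f else 0) * fcurve f S =
        ∑ f ∈ s, w f * fcurve f S := by
      intro S
      rw [hs, Finset.sum_filter]
      apply Finset.sum_congr rfl
      intro f _
      split_ifs
      · rfl
      · rw [zero_mul]
    have hall : ∀ S, r ∉ S → c S = ∑ f ∈ s, w f * fcurve f S := by
      intro S hrS
      by_cases hS : 2 ≤ S.card ∧ 2 ≤ Sᶜ.card
      · apply hval
        rw [hP, Finset.mem_filter]
        exact ⟨Finset.mem_univ S, hrS, hS.1, hS.2⟩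
      · -- both sides vanish
        have hc0 : c S = 0 := by
          by_cases h1 : 2 ≤ S.card
          · have h2 : Sᶜ.card ≤ 1 := by
              by_contra h3
              exact hS ⟨h1, by omega⟩
            rw [← hc.compl]
            exact hc.small _ h2
          · exact hc.small _ (by omega)
        rw [hc0]
        symm
        apply Finset.sum_eq_zero
        intro f hf
        rw [hs, Finset.mem_filter] at hf
        have hz : fcurve f S = 0 := by
          by_cases h1 : ∃ X, S = block f X
          · obtain ⟨X, rfl⟩ := h1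
            unfold fcurve
            rw [if_neg, if_neg (fun h => hS ⟨h.1, h.2.1⟩)]
            rintro ⟨Y, hY, hXY⟩
            have hXY' := block_injective f hf.2 hXY
            subst hXY'
            apply hS
            have hcardX : ∀ Z : Finset (Fin 4), Z.card = 2 → 2 ≤ (block f Z).card := by
              intro Z hZ
              obtain ⟨a, b, hab, rfl⟩ := Finset.card_eq_two.1 hZ
              obtain ⟨x, hx⟩ := hf.2 a
              obtain ⟨y, hy⟩ := hf.2 b
              have hxy : x ≠ y := fun h => hab (by rw [← hx, ← hy, h])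
              have hsub : ({x, y} : Finset (Fin n)) ⊆ block f {a, b} := by
                intro z hz
                rw [Finset.mem_insert, Finset.mem_singleton] at hz
                rcases hz with h | h
                · rw [h, mem_block, hx]; simp
                · rw [h, mem_block, hy]; simp
              calc 2 = ({x, y} : Finset (Fin n)).card := (Finset.card_pair hxy).symm
                _ ≤ _ := Finset.card_le_card hsub
            refine ⟨hcardX X hY, ?_⟩
            rw [← block_compl]
            apply hcardX
            rw [Finset.card_compl, hY, Fintype.card_fin]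
          · push Not at h1
            exact fcurve_not_block f S h1
        rw [hz, mul_zero]
    intro S
    dsimp only
    rw [hsums]
    by_cases hrS : r ∈ S
    · rw [← hc.compl, hall Sᶜ (by simpa using hrS)]
      apply Finset.sum_congr rfl
      intro f _
      rw [fcurve_compl]
    · exact hall S hrS

end Pool.Agent.Helper88.CC
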