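import Pool.Agent.Helper88.CC.Avg

/-!
# The permutation estimate
-/

set_option autoImplicit false

namespace Pool.Agent.Helper88.CC

open Finset Function

variable {V : Type*} [DecidableEq V]

/-- Superadditive nonnegative functions dominate the sum over a matching. -/
theorem matching (G : Finset V → ℝ) (hG0 : ∀ C, 0 ≤ G C)
    (hG : ∀ P Q, Disjoint P Q → G P + G Q ≤ G (P ∪ Q)) (f : ℕ → V) : ∀ m : ℕ,
    Set.InjOn f (Set.Iio (2 * m)) →
      ∑ j ∈ range m, G {f (2 * j), f (2 * j + 1)} ≤ G ((range (2 * m)).image f) := by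
  intro m
  induction m with
  | zero => intro _; simpa using hG0 ∅
  | succ m ih =>
    intro hf
    rw [Finset.sum_range_succ]
    have h1 := ih (hf.mono (fun x hx => by simp only [Set.mem_Iio] at hx ⊢; omega))
    have h2 : (range (2 * (m + 1))).image f =
        (range (2 * m)).image f ∪ {f (2 * m), f (2 * m + 1)} := by
      ext x
      simp only [Finset.mem_image, Finset.mem_range, Finset.mem_union, Finset.mem_insert,
        Finset.mem_singleton]
      constructor
      · rintro ⟨a, ha, rfl⟩
        by_cases h : a < 2 * m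
        · exact Or.inl ⟨a, h, rfl⟩
        · have : a = 2 * m ∨ a = 2 * m + 1 := by omega
          rcases this with h | h
          · exact Or.inr (Or.inl (by rw [h]))
          · exact Or.inr (Or.inr (by rw [h]))
      · rintro (⟨a, ha, rfl⟩ | h | h)
        · exact ⟨a, by omega, rfl⟩
        · exact ⟨2 * m, by omega, h.symm⟩
        · exact ⟨2 * m + 1, by omega, h.symm⟩
    have h3 : Disjoint ((range (2 * m)).image f) {f (2 * m), f (2 * m + 1)} := by
      rw [Finset.disjoint_left]
      intro x hx hx'
      simp only [Finset.mem_image, Finset.mem_range, Finset.mem_insert,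
        Finset.mem_singleton] at hx hx'
      obtain ⟨a, ha, rfl⟩ := hx
      rcases hx' with h | h
      · have := hf (show a ∈ Set.Iio (2 * (m + 1)) by simp only [Set.mem_Iio]; omega)
          (show 2 * m ∈ Set.Iio (2 * (m + 1)) by simp only [Set.mem_Iio]; omega) h
        omega
      · have := hf (show a ∈ Set.Iio (2 * (m + 1)) by simp only [Set.mem_Iio]; omega)
          (show 2 * m + 1 ∈ Set.Iio (2 * (m + 1)) by simp only [Set.mem_Iio]; omega) h
        omega
    rw [h2]
    have := hG _ _ h3
    linarith

/-- Facts on a cycle. -/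
theorem orbit_facts (σ : V → V) (u : V) (L : ℕ) (hL : 0 < L) (hper : σ^[L] u = u)
    (hinj : Set.InjOn (fun i => σ^[i] u) (Set.Iio L)) (hσ : Injective σ) :
    ((range L).image (fun i => σ^[i] u)).image σ = (range L).image (fun i => σ^[i] u) ∧
    ∀ x ∈ (range L).image (fun i => σ^[i] u),
      Set.InjOn (fun i => σ^[i] x) (Set.Iio L) ∧
      (range L).image (fun i => σ^[i] x) = (range L).image (fun i => σ^[i] u) ∧
      (range (L - 1)).image (fun i => σ^[i + 1] x) =
        ((range L).image (fun i => σ^[i] u)).erase x := by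
  set C := (range L).image (fun i => σ^[i] u) with hC
  have hsub : C.image σ ⊆ C := by
    intro x hx
    obtain ⟨y, hy, rfl⟩ := Finset.mem_image.1 hx
    rw [hC] at hy
    obtain ⟨a, ha, rfl⟩ := Finset.mem_image.1 hy
    rw [Finset.mem_range] at ha
    rw [hC, Finset.mem_image]
    by_cases h : a + 1 < L
    · exact ⟨a + 1, Finset.mem_range.2 h, by simp only [Function.iterate_succ_apply']⟩
    · have h' : L = a + 1 := by omega
      refine ⟨0, Finset.mem_range.2 hL, ?_⟩
      simp only [Function.iterate_zero, id]
      rw [← Function.iterate_succ_apply' σ a u, Nat.succ_eq_add_one, ← h', hper]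
  have hcardC : C.card = L := by
    rw [hC, Finset.card_image_of_injOn, Finset.card_range]
    intro a ha b hb hab
    exact hinj (by simpa using ha) (by simpa using hb) hab
  have himg : C.image σ = C := by
    apply Finset.eq_of_subset_of_card_le hsub
    rw [Finset.card_image_of_injective _ hσ]
  refine ⟨himg, ?_⟩
  intro x hx
  have hit : ∀ i, ∀ y ∈ C, σ^[i] y ∈ C := by
    intro i
    induction i with
    | zero => intro y hy; simpa using hy
    | succ i ih =>
      intro y hy
      rw [Function.iterate_succ_apply]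
      exact ih _ (hsub (Finset.mem_image_of_mem σ hy))
  have hinjx : Set.InjOn (fun i => σ^[i] x) (Set.Iio L) := by
    rw [hC] at hx
    obtain ⟨t, ht, rfl⟩ := Finset.mem_image.1 hx
    intro a ha b hb hab
    simp only at hab
    rw [← Function.iterate_add_apply, ← Function.iterate_add_apply, Nat.add_comm a t,
      Nat.add_comm b t, Function.iterate_add_apply, Function.iterate_add_apply] at hab
    exact hinj ha hb (hσ.iterate t hab)
  refine ⟨hinjx, ?_, ?_⟩
  · apply Finset.eq_of_subset_of_card_le
    · intro y hy
      obtain ⟨i, _, rfl⟩ := Finset.mem_image.1 hy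
      exact hit i x hx
    · rw [hcardC, Finset.card_image_of_injOn, Finset.card_range]
      intro a ha b hb hab
      exact hinjx (by simpa using ha) (by simpa using hb) hab
  · apply Finset.eq_of_subset_of_card_le
    · intro y hy
      obtain ⟨i, hi, rfl⟩ := Finset.mem_image.1 hy
      rw [Finset.mem_range] at hi
      refine Finset.mem_erase.2 ⟨?_, hit _ x hx⟩
      intro h
      have := hinjx (show i + 1 ∈ Set.Iio L by simp only [Set.mem_Iio]; omega)
        (show 0 ∈ Set.Iio L from hL) (by simpa using h)
      omega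
    · rw [Finset.card_erase_of_mem hx, hcardC, Finset.card_image_of_injOn, Finset.card_range]
      intro a ha b hb hab
      have ha' : a < L - 1 := by simpa using ha
      have hb' : b < L - 1 := by simpa using hb
      have := hinjx (show a + 1 ∈ Set.Iio L by simp only [Set.mem_Iio]; omega)
        (show b + 1 ∈ Set.Iio L by simp only [Set.mem_Iio]; omega) hab
      omega

/-- Shifting a sum over an invariant set. -/
theorem sum_shift (σ : V → V) (hσ : Injective σ) (C : Finset V) (hC : C.image σ = C)
    (F : V → ℝ) : ∀ i : ℕ, ∑ x ∈ C, F (σ^[i] x) = ∑ x ∈ C, F x := by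
  intro i
  induction i generalizing F with
  | zero => simp
  | succ i ih =>
    have h1 : ∑ x ∈ C, F (σ^[i + 1] x) = ∑ x ∈ C, (fun y => F (σ y)) (σ^[i] x) := by
      apply Finset.sum_congr rfl
      intro x _
      simp only [Function.iterate_succ_apply']
    rw [h1, ih (fun y => F (σ y))]
    conv_rhs => rw [← hC]
    rw [Finset.sum_image (fun a _ b _ h => hσ h)]

/-- The estimate on one cycle. -/
theorem cycle_bound (g : Finset V → ℝ) (hg0 : ∀ C, 0 ≤ g C)
    (hg : ∀ P Q, Disjoint P Q → g P + g Q ≤ g (P ∪ Q)) (T : V → V → ℝ)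
    (hTd : ∀ v, T v v = 0) (hT : ∀ i j, T i j ≤ g {i, j})
    (σ : V → V) (hσ : Injective σ) (u : V) (L : ℕ) (hL : 0 < L) (hper : σ^[L] u = u)
    (hinj : Set.InjOn (fun i => σ^[i] u) (Set.Iio L)) :
    (1 / 6 : ℝ) * ∑ v ∈ (range L).image (fun i => σ^[i] u), T v (σ v) ≤
      avg g ((range L).image (fun i => σ^[i] u)) := by
  obtain ⟨himg, hfacts⟩ := orbit_facts σ u L hL hper hinj hσ
  set C := (range L).image (fun i => σ^[i] u) with hC
  have hcardC : C.card = L := by
    rw [hC, Finset.card_image_of_injOn, Finset.card_range]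
    intro a ha b hb hab
    exact hinj (by simpa using ha) (by simpa using hb) hab
  have hA0 := avg_nonneg g hg0
  have hA := fun P Q h => avg_super' g hg P Q h
  have hA3 : ∀ i j, T i j ≤ 3 * avg g {i, j} := fun i j =>
    (hT i j).trans (avg_pair g hg0 i j)
  set E := ∑ v ∈ C, T v (σ v) with hE
  -- sums over shifted matchings
  have hsum : ∀ s m : ℕ, ∑ x ∈ C, ∑ j ∈ range m, T (σ^[2 * j + s] x) (σ^[2 * j + 1 + s] x) =
      m * E := by
    intro s m
    rw [Finset.sum_comm]
    have : ∀ j ∈ range m, ∑ x ∈ C, T (σ^[2 * j + s] x) (σ^[2 * j + 1 + s] x) = E := by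
      intro j _
      have h1 := sum_shift σ hσ C himg (fun y => T y (σ y)) (2 * j + s)
      rw [hE, ← h1]
      apply Finset.sum_congr rfl
      intro x _
      have h2 : 2 * j + 1 + s = (2 * j + s) + 1 := by ring
      rw [h2, Function.iterate_succ_apply']
    rw [Finset.sum_congr rfl this, Finset.sum_const, Finset.card_range, nsmul_eq_mul]
  obtain ⟨m, hm | hm⟩ := Nat.even_or_odd' L
  · -- even length
    have h1 : ∀ x ∈ C, ∑ j ∈ range m, T (σ^[2 * j + 0] x) (σ^[2 * j + 1 + 0] x) ≤
        3 * avg g C := by
      intro x hx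
      obtain ⟨hi, him, _⟩ := hfacts x hx
      have h2 := matching (avg g) hA0 hA (fun i => σ^[i] x) m (by rw [← hm]; exact hi)
      rw [← hm, him] at h2
      calc ∑ j ∈ range m, T (σ^[2 * j + 0] x) (σ^[2 * j + 1 + 0] x)
          ≤ ∑ j ∈ range m, 3 * avg g {σ^[2 * j] x, σ^[2 * j + 1] x} :=
            Finset.sum_le_sum fun j _ => hA3 _ _
        _ = 3 * ∑ j ∈ range m, avg g {σ^[2 * j] x, σ^[2 * j + 1] x} := by
            rw [Finset.mul_sum]
        _ ≤ 3 * avg g C := by linarith
    have h3 := Finset.sum_le_sum h1
    rw [hsum 0 m, Finset.sum_const, hcardC, nsmul_eq_mul] at h3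
    have hmpos : (0 : ℝ) < m := by
      have : 0 < m := by omega
      exact_mod_cast this
    have hLm : (L : ℝ) = 2 * m := by rw [hm]; push_cast; ring
    rw [hLm] at h3
    have h4 : (m : ℝ) * E ≤ m * (6 * avg g C) := by linarith
    have h5 := le_of_mul_le_mul_left h4 hmpos
    linarith
  · -- odd length
    rcases Nat.eq_zero_or_pos m with hm0 | hmpos
    · -- fixed point
      subst hm0
      have hL1 : L = 1 := by omega
      have hE0 : E = 0 := by
        rw [hE]
        apply Finset.sum_eq_zero
        intro v hv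
        have hv' : v = u := by
          rw [hC, hL1] at hv
          simpa using hv
        subst hv'
        rw [hL1] at hper
        simp only [Function.iterate_one] at hper
        rw [hper, hTd]
      rw [hE0]
      have := hA0 C
      linarith
    · have hL1 : L - 1 = 2 * m := by omega
      have hinj' : ∀ x ∈ C, Set.InjOn (fun i => σ^[i + 1] x) (Set.Iio (2 * m)) := by
        intro x hx a ha b hb hab
        obtain ⟨hi, _, _⟩ := hfacts x hx
        simp only [Set.mem_Iio] at ha hb
        have := hi (show a + 1 ∈ Set.Iio L by simp only [Set.mem_Iio]; omega)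
          (show b + 1 ∈ Set.Iio L by simp only [Set.mem_Iio]; omega) hab
        omega
      have h1 : ∀ x ∈ C, ∑ j ∈ range m, T (σ^[2 * j + 1] x) (σ^[2 * j + 1 + 1] x) ≤
          3 * avg g (C.erase x) := by
        intro x hx
        obtain ⟨_, _, hie⟩ := hfacts x hx
        have h2 := matching (avg g) hA0 hA (fun i => σ^[i + 1] x) m (hinj' x hx)
        rw [← hL1, hie] at h2
        calc ∑ j ∈ range m, T (σ^[2 * j + 1] x) (σ^[2 * j + 1 + 1] x)
            ≤ ∑ j ∈ range m, 3 * avg g {σ^[2 * j + 1] x, σ^[2 * j + 1 + 1] x} :=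
              Finset.sum_le_sum fun j _ => hA3 _ _
          _ = 3 * ∑ j ∈ range m, avg g {σ^[2 * j + 1] x, σ^[2 * j + 1 + 1] x} := by
              rw [Finset.mul_sum]
          _ ≤ 3 * avg g (C.erase x) := by linarith
      have h1' : ∀ x ∈ C, ∑ j ∈ range m, T (σ^[2 * j + 1] x) (σ^[2 * j + 1 + 1] x) ≤ g C := by
        intro x hx
        obtain ⟨_, _, hie⟩ := hfacts x hx
        have h2 := matching g hg0 hg (fun i => σ^[i + 1] x) m (hinj' x hx)
        rw [← hL1, hie] at h2
        have h3 : g (C.erase x) ≤ g C := by
          have h4 := hg {x} (C.erase x) (by simp)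
          rw [← Finset.insert_eq, Finset.insert_erase hx] at h4
          have := hg0 {x}
          linarith
        calc ∑ j ∈ range m, T (σ^[2 * j + 1] x) (σ^[2 * j + 1 + 1] x)
            ≤ ∑ j ∈ range m, g {σ^[2 * j + 1] x, σ^[2 * j + 1 + 1] x} :=
              Finset.sum_le_sum fun j _ => hT _ _
          _ ≤ g C := by linarith
      have h3 := Finset.sum_le_sum h1
      have h3' := Finset.sum_le_sum h1'
      rw [hsum 1 m, ← Finset.mul_sum] at h3
      rw [hsum 1 m, Finset.sum_const, hcardC, nsmul_eq_mul] at h3'
      have hav := avg_eq g C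
      rw [hcardC] at hav
      have hLm : (L : ℝ) = 2 * m + 1 := by rw [hm]; push_cast; ring
      rw [hLm] at h3' hav
      have hm1 : (1 : ℝ) ≤ m := by exact_mod_cast hmpos
      have hE0 : 0 ≤ g C := hg0 C
      -- (2m+2) A = g C + S, 3 S ≥ m E, (2m+1) g C ≥ m E
      set S := ∑ v ∈ C, avg g (C.erase v) with hS
      have hS0 : 0 ≤ S := Finset.sum_nonneg fun v _ => hA0 _
      have hA0C := hA0 C
      have hkey : (2 * (m : ℝ) + 1) * 6 * (g C + S) ≥ (2 * m + 1) * (2 * m + 2) * E := by
        rcases le_or_gt E 0 with hE1 | hE1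
        · have : (2 * (m : ℝ) + 1) * (2 * m + 2) * E ≤ 0 :=
            mul_nonpos_of_nonneg_of_nonpos (by positivity) hE1
          have h5 : 0 ≤ (2 * (m : ℝ) + 1) * 6 * (g C + S) := by positivity
          linarith
        · -- 6 (2m+1) g C ≥ 6 m E; 6 (2m+1) S ≥ 2 (2m+1) m E
          have h6 : 6 * ((m : ℝ) * E) ≤ 6 * ((2 * m + 1) * g C) := by linarith
          have h7 : (2 * (2 * (m : ℝ) + 1)) * (m * E) ≤ (2 * (2 * m + 1)) * (3 * S) :=
            mul_le_mul_of_nonneg_left h3 (by positivity)
          have h8 : 0 ≤ ((m : ℝ) - 1) * E := mul_nonneg (by linarith) hE1.le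
          nlinarith [h6, h7, h8]
      have h9 : (2 * (m : ℝ) + 1) * ((2 * m + 2) * E) ≤
          (2 * m + 1) * (6 * ((2 * m + 2) * avg g C)) := by
        have : (2 * (m : ℝ) + 2) * avg g C = g C + S := by rw [← hav]; ring
        rw [this]
        linarith
      have h10 := le_of_mul_le_mul_left h9 (by positivity)
      have h11 : (2 * (m : ℝ) + 2) * E ≤ (2 * m + 2) * (6 * avg g C) := by linarith
      have h12 := le_of_mul_le_mul_left h11 (by positivity)
      linarith

/-- The permutation estimate. -/
theorem perm_bound (g : Finset V → ℝ) (hg0 : ∀ C, 0 ≤ g C)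
    (hg : ∀ P Q, Disjoint P Q → g P + g Q ≤ g (P ∪ Q)) (T : V → V → ℝ)
    (hTd : ∀ v, T v v = 0) (hT : ∀ i j, T i j ≤ g {i, j})
    (σ : V → V) (hσ : Injective σ) : ∀ (W : Finset V), W.image σ = W →
    (1 / 6 : ℝ) * ∑ v ∈ W, T v (σ v) ≤ avg g W := by
  intro W
  induction W using Finset.strongInduction with
  | H W ih =>
    intro hW
    rcases W.eq_empty_or_nonempty with hW0 | ⟨u, hu⟩
    · subst hW0
      simpa using avg_nonneg g hg0 ∅
    · have hit : ∀ i, σ^[i] u ∈ W := by
        intro i
        induction i with
        | zero => simpa using hu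
        | succ i ih =>
          rw [Function.iterate_succ_apply']
          have hmem := Finset.mem_image_of_mem σ ih
          rwa [hW] at hmem
      -- u is periodic
      have hper : u ∈ Function.periodicPts σ := by
        obtain ⟨a, b, hab, hne⟩ : ∃ a b : ℕ, a < b ∧ σ^[a] u = σ^[b] u := by
          by_contra hcon
          push Not at hcon
          have hinj : Function.Injective (fun i : ℕ => (⟨σ^[i] u, hit i⟩ : W)) := by
            intro a b hab
            simp only [Subtype.mk.injEq] at hab
            rcases lt_trichotomy a b with h | h | h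
            · exact absurd hab (hcon a b h)
            · exact h
            · exact absurd hab.symm (hcon b a h)
          exact not_injective_infinite_finite _ hinj
        refine ⟨b - a, by omega, ?_⟩
        have h1 : σ^[b] u = σ^[a] (σ^[b - a] u) := by
          rw [← Function.iterate_add_apply]
          congr 1
          omega
        rw [h1] at hne
        exact (hσ.iterate a hne).symm
      set L := Function.minimalPeriod σ u with hLdef
      have hL : 0 < L := Function.minimalPeriod_pos_of_mem_periodicPts hper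
      have hLp : σ^[L] u = u := Function.iterate_minimalPeriod
      have hinj : Set.InjOn (fun i => σ^[i] u) (Set.Iio L) :=
        Function.iterate_injOn_Iio_minimalPeriod
      have h1 := cycle_bound g hg0 hg T hTd hT σ hσ u L hL hLp hinj
      obtain ⟨himg, _⟩ := orbit_facts σ u L hL hLp hinj hσ
      set C := (range L).image (fun i => σ^[i] u) with hC
      have hCW : C ⊆ W := by
        intro x hx
        rw [hC] at hx
        obtain ⟨i, _, rfl⟩ := Finset.mem_image.1 hx
        exact hit i
      have huC : u ∈ C := by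
        rw [hC]
        exact Finset.mem_image.2 ⟨0, Finset.mem_range.2 hL, rfl⟩
      have hsd : W \ C ⊂ W := by
        refine Finset.ssubset_iff_subset_ne.2 ⟨Finset.sdiff_subset, ?_⟩
        intro h
        have : u ∈ W \ C := by rw [h]; exact hu
        exact (Finset.mem_sdiff.1 this).2 huC
      have hinv : (W \ C).image σ = W \ C := by
        rw [Finset.image_sdiff _ _ hσ, hW, himg]
      have h2 := ih (W \ C) hsd hinv
      have h3 := avg_super' g hg C (W \ C) Finset.disjoint_sdiff
      rw [Finset.union_sdiff_of_subset hCW] at h3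
      have h4 : ∑ v ∈ W, T v (σ v) = ∑ v ∈ C, T v (σ v) + ∑ v ∈ W \ C, T v (σ v) := by
        rw [add_comm, Finset.sum_sdiff hCW]
      rw [h4]
      linarith

end Pool.Agent.Helper88.CC
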