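import Pool.Agent.Helper88.CC.Dual

/-!
# Curves coming from the projections of a plane configuration of points
-/

set_option autoImplicit false

namespace Pool.Agent.Helper88.CC

open Finset Function

variable {n : ℕ}

/-- A linear space on the points `Fin n`: any two points lie on exactly one line, and every line
has at least two points. (The lines spanned by `n` distinct points of a projective plane, recorded
as subsets of the points.) -/
structure IsLinearSpace (L : Finset (Finset (Fin n))) : Prop where
  two : ∀ T ∈ L, 2 ≤ T.card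
  line : ∀ i j : Fin n, i ≠ j → ∃! T, T ∈ L ∧ i ∈ T ∧ j ∈ T

/-- The vector which is `1` at `T` and `Tᶜ` (if these define a boundary divisor) and `0`
elsewhere. -/
noncomputable def ee (T S : Finset (Fin n)) : ℝ :=
  open Classical in if Proper S ∧ (S = T ∨ Sᶜ = T) then 1 else 0

/-- The intersection numbers with the boundary divisors `δ_S` of the family of `n` pointed curves
obtained by projecting the `n` points from a centre moving on a plane curve of degree `d` with
multiplicity `m i` at the point `i`: a centre on a line `T` makes the points of `T` collide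
(`d - ∑ i ∈ T, m i` times), and a centre at the point `i` makes the other points of every line
`T` through `i` collide (`m i` times). -/
noncomputable def planeClass (L : Finset (Finset (Fin n))) (d : ℝ) (m : Fin n → ℝ)
    (S : Finset (Fin n)) : ℝ :=
  ∑ T ∈ L, ((d - ∑ i ∈ T, m i) * ee T S + ∑ i ∈ T, m i * ee (T.erase i) S)

/-- The cone of curve classes `(d; m)` on the blow up of the plane in the `n` points which is
generated by the exceptional curves `(0; -1_i)`, the lines `(1; 1_T)` through at least two of the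
points, and the classes `(d; m)` with `m ≥ 0` and `m i + m j ≤ d` for all `i ≠ j`. (Every other
irreducible plane curve satisfies these inequalities, by Bezout's theorem with the line through
two of the points.) -/
def PlaneEffective (L : Finset (Finset (Fin n))) (d : ℝ) (m : Fin n → ℝ) : Prop :=
  ∃ (d₀ : ℝ) (m₀ a : Fin n → ℝ) (b : Finset (Fin n) → ℝ),
    (∀ i, 0 ≤ m₀ i) ∧ (∀ i j, i ≠ j → m₀ i + m₀ j ≤ d₀) ∧ (∀ i, 0 ≤ a i) ∧ (∀ T, 0 ≤ b T) ∧
    d = d₀ + ∑ T ∈ L, b T ∧ ∀ i, m i = m₀ i - a i + ∑ T ∈ L with i ∈ T, b T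

theorem ee_compl (T S : Finset (Fin n)) : ee T Sᶜ = ee T S := by
  classical
  unfold ee
  simp only [Proper.compl, compl_compl, or_comm]

theorem ee_improper (T S : Finset (Fin n)) (hS : ¬ Proper S) : ee T S = 0 := by
  classical
  unfold ee
  rw [if_neg (fun h => hS h.1)]

theorem FNef.empty {K : Finset (Fin n) → ℝ} (hK : FNef K) : K ∅ = 0 :=
  hK.improper _ (by unfold Proper; simp)

theorem FNef.univ {K : Finset (Fin n) → ℝ} (hK : FNef K) : K univ = 0 :=
  hK.improper _ (by unfold Proper; simp)

theorem FNef.singleton {K : Finset (Fin n) → ℝ} (hK : FNef K) (i : Fin n) : K {i} = 0 :=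
  hK.improper _ (by unfold Proper; simp)

theorem FNef.cosingleton {K : Finset (Fin n) → ℝ} (hK : FNef K) (i : Fin n) :
    K (Finset.univ.erase i) = 0 := by
  have h1 : (Finset.univ.erase i : Finset (Fin n)) = {i}ᶜ := by
    ext x; simp
  rw [h1, hK.compl, hK.singleton]

theorem ee_sum (hn : 1 ≤ n) {K : Finset (Fin n) → ℝ} (hK : FNef K) (T : Finset (Fin n)) :
    ∑ S, ee T S * K S = 2 * K T := by
  classical
  by_cases hT : Proper T
  · have hne : T ≠ Tᶜ := by
      intro h
      have h1 : (⟨0, hn⟩ : Fin n) ∈ T ↔ (⟨0, hn⟩ : Fin n) ∉ T := by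
        conv_lhs => rw [h]
        rw [Finset.mem_compl]
      tauto
    have h1 : ∀ S, ee T S * K S = (if S = T then K T else 0) + (if S = Tᶜ then K T else 0) := by
      intro S
      unfold ee
      by_cases h2 : S = T
      · subst h2
        rw [if_pos ⟨hT, Or.inl rfl⟩, if_pos rfl, if_neg hne]
        ring
      · by_cases h3 : S = Tᶜ
        · subst h3
          rw [if_pos ⟨Proper.compl.2 hT, Or.inr (compl_compl T)⟩, if_neg (fun h => hne h.symm),
            if_pos rfl, hK.compl]
          ring
        · rw [if_neg, if_neg h2, if_neg h3]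
          · ring
          · rintro ⟨_, h4 | h4⟩
            · exact h2 h4
            · exact h3 (by rw [← h4, compl_compl])
    simp only [h1]
    rw [Finset.sum_add_distrib, Finset.sum_ite_eq', Finset.sum_ite_eq']
    simp only [Finset.mem_univ, if_true]
    ring
  · rw [hK.improper T hT, mul_zero]
    apply Finset.sum_eq_zero
    intro S _
    by_cases hS : Proper S
    · unfold ee
      rw [if_neg, zero_mul]
      rintro ⟨_, h4 | h4⟩
      · exact hT (h4 ▸ hS)
      · exact hT (h4 ▸ (Proper.compl.2 hS))
    · rw [hK.improper S hS, mul_zero]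

/-- The function attached to a block is subadditive. -/
theorem sub_two {K : Finset (Fin n) → ℝ} (hK : FNef K) (X U W : Finset (Fin n))
    (hX : X.Nonempty) (hU : U.Nonempty) (hW : W.Nonempty) (hXU : Disjoint X U)
    (hXW : Disjoint X W) (hUW : Disjoint U W) :
    K (X ∪ (U ∪ W)) - K (U ∪ W) - K X ≤ (K (X ∪ U) - K U - K X) + (K (X ∪ W) - K W - K X) := by
  by_cases h : X ∪ U ∪ W = univ
  · have e1 : X ∪ (U ∪ W) = univ := by rw [← Finset.union_assoc, h]
    have hmem : ∀ x, x ∈ X ∨ x ∈ U ∨ x ∈ W := by
      intro x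
      have := Finset.mem_univ x
      rw [← e1, Finset.mem_union, Finset.mem_union] at this
      exact this
    have dXU := Finset.disjoint_left.1 hXU
    have dXW := Finset.disjoint_left.1 hXW
    have dUW := Finset.disjoint_left.1 hUW
    have e2 : X ∪ U = Wᶜ := by
      ext x
      rw [Finset.mem_union, Finset.mem_compl]
      have h1 := hmem x
      have h2 : x ∈ X → x ∉ W := fun h => dXW h
      have h3 : x ∈ U → x ∉ W := fun h => dUW h
      tauto
    have e3 : X ∪ W = Uᶜ := by
      ext x
      rw [Finset.mem_union, Finset.mem_compl]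
      have h1 := hmem x
      have h2 : x ∈ X → x ∉ U := fun h => dXU h
      have h3 : x ∈ U → x ∉ W := fun h => dUW h
      tauto
    have e4 : U ∪ W = Xᶜ := by
      ext x
      rw [Finset.mem_union, Finset.mem_compl]
      have h1 := hmem x
      have h2 : x ∈ X → x ∉ U := fun h => dXU h
      have h3 : x ∈ X → x ∉ W := fun h => dXW h
      tauto
    rw [e1, e2, e3, e4, hK.compl, hK.compl, hK.compl, hK.univ]
    linarith
  · have := hK.third X U W hX hU hW hXU hXW hUW h
    rw [Finset.union_assoc] at this
    linarith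

/-- Subadditivity over a finite family of blocks. -/
theorem sub_family {ι : Type*} [DecidableEq ι] {K : Finset (Fin n) → ℝ} (hK : FNef K)
    (X : Finset (Fin n)) (hX : X.Nonempty) (I : Finset ι) (hI : I.Nonempty)
    (B : ι → Finset (Fin n)) :
    (∀ i ∈ I, (B i).Nonempty) → (∀ i ∈ I, Disjoint X (B i)) →
    (∀ i ∈ I, ∀ j ∈ I, i ≠ j → Disjoint (B i) (B j)) →
    K (X ∪ I.biUnion B) - K (I.biUnion B) - K X ≤ ∑ i ∈ I, (K (X ∪ B i) - K (B i) - K X) := by
  induction hI using Finset.Nonempty.cons_induction with
  | singleton a =>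
    intro _ _ _
    rw [Finset.singleton_biUnion, Finset.sum_singleton]
  | cons a s ha hs ih =>
    intro h1 h2 h3
    rw [Finset.sum_cons, Finset.cons_eq_insert, Finset.biUnion_insert]
    have ih' := ih (fun i hi => h1 i (Finset.mem_cons_of_mem hi))
      (fun i hi => h2 i (Finset.mem_cons_of_mem hi))
      (fun i hi j hj => h3 i (Finset.mem_cons_of_mem hi) j (Finset.mem_cons_of_mem hj))
    have hne : (s.biUnion B).Nonempty := by
      obtain ⟨b, hb⟩ := hs
      obtain ⟨x, hx⟩ := h1 b (Finset.mem_cons_of_mem hb)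
      exact ⟨x, Finset.mem_biUnion.2 ⟨b, hb, hx⟩⟩
    have hXs : Disjoint X (s.biUnion B) := by
      rw [Finset.disjoint_biUnion_right]
      intro i hi
      exact h2 i (Finset.mem_cons_of_mem hi)
    have has : Disjoint (B a) (s.biUnion B) := by
      rw [Finset.disjoint_biUnion_right]
      intro i hi
      exact h3 a (Finset.mem_cons_self a s) i (Finset.mem_cons_of_mem hi)
        (fun h => ha (h ▸ hi))
    have h4 := sub_two hK X (B a) (s.biUnion B) hX (h1 a (Finset.mem_cons_self a s)) hne
      (h2 a (Finset.mem_cons_self a s)) hXs has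
    linarith

/-- Two lines through a point meet only there. -/
theorem IsLinearSpace.unique {L : Finset (Finset (Fin n))} (hL : IsLinearSpace L)
    {T T' : Finset (Fin n)} (hT : T ∈ L) (hT' : T' ∈ L) {i j : Fin n} (hij : i ≠ j)
    (h1 : i ∈ T) (h2 : j ∈ T) (h3 : i ∈ T') (h4 : j ∈ T') : T = T' := by
  obtain ⟨T₀, _, hu⟩ := hL.line i j hij
  rw [hu T ⟨hT, h1, h2⟩, hu T' ⟨hT', h3, h4⟩]

/-- The traces of the lines on a subset. -/
theorem trace_bound {L : Finset (Finset (Fin n))} (hL : IsLinearSpace L)
    {K : Finset (Fin n) → ℝ} (hK : FNef K) (V : Finset (Fin n)) :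
    K V ≤ ∑ T ∈ L, K (T ∩ V) := by
  classical
  induction V using Finset.induction_on with
  | empty =>
    simp only [Finset.inter_empty, hK.empty, Finset.sum_const_zero, le_refl]
  | insert j V hj ih =>
    -- the change of the right hand side
    have h1 : ∑ T ∈ L, K (T ∩ insert j V) - ∑ T ∈ L, K (T ∩ V) =
        ∑ T ∈ L with j ∈ T ∧ (T ∩ V).Nonempty,
          (K ({j} ∪ (T ∩ V)) - K (T ∩ V) - K {j}) := by
      rw [← Finset.sum_sub_distrib, Finset.sum_filter]
      apply Finset.sum_congr rfl
      intro T _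
      by_cases h2 : j ∈ T
      · have e1 : T ∩ insert j V = {j} ∪ (T ∩ V) := by
          ext x
          simp only [Finset.mem_inter, Finset.mem_insert, Finset.mem_union, Finset.mem_singleton]
          constructor
          · rintro ⟨h3, h4 | h4⟩
            · exact Or.inl h4
            · exact Or.inr ⟨h3, h4⟩
          · rintro (h3 | h3)
            · exact ⟨h3 ▸ h2, Or.inl h3⟩
            · exact ⟨h3.1, Or.inr h3.2⟩
        by_cases h3 : (T ∩ V).Nonempty
        · rw [if_pos ⟨h2, h3⟩, e1, hK.singleton]
          ring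
        · rw [if_neg (fun h => h3 h.2), e1]
          rw [Finset.not_nonempty_iff_eq_empty] at h3
          rw [h3, Finset.union_empty, hK.singleton, hK.empty]
          ring
      · rw [if_neg (fun h => h2 h.1)]
        have e1 : T ∩ insert j V = T ∩ V := by
          ext x
          simp only [Finset.mem_inter, Finset.mem_insert]
          constructor
          · rintro ⟨h3, h4 | h4⟩
            · exact absurd (h4 ▸ h3) h2
            · exact ⟨h3, h4⟩
          · rintro ⟨h3, h4⟩
            exact ⟨h3, Or.inr h4⟩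
        rw [e1]
        ring
    rcases V.eq_empty_or_nonempty with hV | hV
    · subst hV
      have e1 : K (insert j ∅) = 0 := by
        rw [← Finset.singleton_union, Finset.union_empty, hK.singleton]
      rw [e1]
      have e2 : ∑ T ∈ L with j ∈ T ∧ (T ∩ ∅).Nonempty,
          (K ({j} ∪ (T ∩ ∅)) - K (T ∩ ∅) - K {j}) = 0 := by
        apply Finset.sum_eq_zero
        intro T hT
        rw [Finset.mem_filter] at hT
        simp at hT
      rw [e2] at h1
      rw [hK.empty] at ih
      linarith
    · -- blocks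
      have hU : (L.filter (fun T => j ∈ T ∧ (T ∩ V).Nonempty)).biUnion (fun T => T ∩ V) = V := by
        ext x
        simp only [Finset.mem_biUnion, Finset.mem_filter, Finset.mem_inter]
        constructor
        · rintro ⟨T, _, _, hx⟩
          exact hx
        · intro hx
          have hxj : j ≠ x := fun h => hj (h ▸ hx)
          obtain ⟨T, ⟨hT, h2, h3⟩, _⟩ := hL.line j x hxj
          exact ⟨T, ⟨hT, h2, ⟨x, Finset.mem_inter.2 ⟨h3, hx⟩⟩⟩, h3, hx⟩
      have hne : (L.filter (fun T => j ∈ T ∧ (T ∩ V).Nonempty)).Nonempty := by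
        obtain ⟨x, hx⟩ := hV
        rw [← hU] at hx
        obtain ⟨T, hT, _⟩ := Finset.mem_biUnion.1 hx
        exact ⟨T, hT⟩
      have h2 := sub_family hK {j} (Finset.singleton_nonempty j)
        (L.filter (fun T => j ∈ T ∧ (T ∩ V).Nonempty)) hne (fun T => T ∩ V)
        (fun T hT => (Finset.mem_filter.1 hT).2.2)
        (fun T _ => by
          rw [Finset.disjoint_singleton_left]
          intro h
          exact hj (Finset.mem_inter.1 h).2)
        (fun T hT T' hT' hne => by
          rw [Finset.disjoint_left]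
          intro x hx hx'
          rw [Finset.mem_inter] at hx hx'
          apply hne
          rw [Finset.mem_filter] at hT hT'
          exact hL.unique hT.1 hT'.1 (fun h : j = x => hj (h ▸ hx.2)) hT.2.1 hx.1 hT'.2.1 hx'.1)
      rw [hU, hK.singleton, ← Finset.insert_eq] at h2
      rw [hK.singleton] at h1
      linarith

/-- The class of a moving attaching point. -/
theorem vee_bound {K : Finset (Fin n) → ℝ} (hK : FNef K) (T : Finset (Fin n))
    (hT : T.Nonempty) : 0 ≤ (2 - (T.card : ℝ)) * K T + ∑ i ∈ T, K (T.erase i) := by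
  classical
  by_cases hu : T = univ
  · subst hu
    rw [hK.univ, mul_zero, zero_add]
    apply le_of_eq
    symm
    apply Finset.sum_eq_zero
    intro i _
    exact hK.cosingleton i
  · have hX : (Tᶜ).Nonempty := by
      rw [Finset.nonempty_iff_ne_empty]
      intro h
      apply hu
      rw [← compl_compl T, h, Finset.compl_empty]
    have h2 := sub_family hK Tᶜ hX T hT (fun i => {i}) (fun i _ => Finset.singleton_nonempty i)
      (fun i hi => by
        rw [Finset.disjoint_singleton_right, Finset.mem_compl]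
        exact fun h => h hi)
      (fun i _ j _ hij => by
        rw [Finset.disjoint_singleton]
        exact hij)
    rw [Finset.biUnion_singleton_eq_self] at h2
    have e1 : Tᶜ ∪ T = univ := by
      ext x
      simp only [Finset.mem_union, Finset.mem_compl, Finset.mem_univ, iff_true]
      tauto
    rw [e1, hK.univ, hK.compl] at h2
    have e2 : ∑ i ∈ T, (K (Tᶜ ∪ {i}) - K {i} - K T) = ∑ i ∈ T, K (T.erase i) - T.card * K T := by
      rw [← nsmul_eq_mul, ← Finset.sum_const, ← Finset.sum_sub_distrib]
      apply Finset.sum_congr rfl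
      intro i _
      have e3 : Tᶜ ∪ {i} = (T.erase i)ᶜ := by
        ext x
        simp only [Finset.mem_union, Finset.mem_compl, Finset.mem_singleton, Finset.mem_erase]
        tauto
      rw [e3, hK.compl, hK.singleton]
      ring
    rw [e2] at h2
    linarith

section Sums

variable {L : Finset (Finset (Fin n))} {K : Finset (Fin n) → ℝ}

/-- The value of an F-nef class on the exceptional curve of `i`. -/
noncomputable def EE (L : Finset (Finset (Fin n))) (K : Finset (Fin n) → ℝ) (i : Fin n) : ℝ :=
  ∑ T ∈ L with i ∈ T, (K T - K (T.erase i))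

theorem EE_nonneg (hn : 2 ≤ n) (hL : IsLinearSpace L) (hK : FNef K) (i : Fin n) :
    0 ≤ EE L K i := by
  classical
  unfold EE
  have hU : (L.filter (fun T => i ∈ T)).biUnion (fun T => T.erase i) = univ.erase i := by
    ext x
    simp only [Finset.mem_biUnion, Finset.mem_filter, Finset.mem_erase, Finset.mem_univ,
      and_true]
    constructor
    · rintro ⟨T, _, hx, _⟩
      exact hx
    · intro hx
      obtain ⟨T, ⟨hT, h2, h3⟩, _⟩ := hL.line i x (Ne.symm hx)
      exact ⟨T, ⟨hT, h2⟩, hx, h3⟩
  have hne : (L.filter (fun T => i ∈ T)).Nonempty := by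
    have hcard : 1 < (univ : Finset (Fin n)).card := by
      rw [Finset.card_univ, Fintype.card_fin]; omega
    obtain ⟨j, _, hji⟩ := Finset.exists_mem_ne hcard i
    obtain ⟨T, ⟨hT, h2, _⟩, _⟩ := hL.line i j (Ne.symm hji)
    exact ⟨T, Finset.mem_filter.2 ⟨hT, h2⟩⟩
  have h2 := sub_family hK {i} (Finset.singleton_nonempty i) (L.filter (fun T => i ∈ T)) hne
    (fun T => T.erase i)
    (fun T hT => by
      rw [Finset.mem_filter] at hT
      rw [← Finset.card_pos, Finset.card_erase_of_mem hT.2]
      have := hL.two T hT.1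
      omega)
    (fun T _ => by
      rw [Finset.disjoint_singleton_left]
      exact Finset.notMem_erase i T)
    (fun T hT T' hT' hne => by
      rw [Finset.disjoint_left]
      intro x hx hx'
      rw [Finset.mem_erase] at hx hx'
      rw [Finset.mem_filter] at hT hT'
      exact hne (hL.unique hT.1 hT'.1 (Ne.symm hx.1) hT.2 hx.2 hT'.2 hx'.2))
  rw [hU] at h2
  have e1 : ({i} : Finset (Fin n)) ∪ univ.erase i = univ := by
    rw [← Finset.insert_eq, Finset.insert_erase (Finset.mem_univ i)]
  rw [e1, hK.univ, hK.cosingleton, hK.singleton] at h2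
  have e2 : ∑ T ∈ L with i ∈ T, (K ({i} ∪ T.erase i) - K (T.erase i) - 0) =
      ∑ T ∈ L with i ∈ T, (K T - K (T.erase i)) := by
    apply Finset.sum_congr rfl
    intro T hT
    rw [Finset.mem_filter] at hT
    rw [← Finset.insert_eq, Finset.insert_erase hT.2]
    ring
  rw [e2] at h2
  linarith

theorem P_sub_EE (hL : IsLinearSpace L) (hK : FNef K) (i : Fin n) :
    0 ≤ ∑ T ∈ L, K T - EE L K i := by
  classical
  have h1 := trace_bound hL hK (univ.erase i)
  rw [hK.cosingleton] at h1
  have e1 : ∑ T ∈ L, K T - EE L K i = ∑ T ∈ L, K (T ∩ univ.erase i) := by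
    unfold EE
    rw [Finset.sum_filter, ← Finset.sum_sub_distrib]
    apply Finset.sum_congr rfl
    intro T _
    by_cases h : i ∈ T
    · rw [if_pos h]
      have e2 : T ∩ univ.erase i = T.erase i := by
        ext x
        simp only [Finset.mem_inter, Finset.mem_erase, Finset.mem_univ, and_true]
        tauto
      rw [e2]
      ring
    · rw [if_neg h]
      have e2 : T ∩ univ.erase i = T := by
        ext x
        simp only [Finset.mem_inter, Finset.mem_erase, Finset.mem_univ, and_true]
        constructor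
        · exact fun h => h.1
        · exact fun hx => ⟨hx, fun h' => h (h' ▸ hx)⟩
      rw [e2]
      ring
  rw [e1]
  exact h1

/-- Exchanging sums. -/
theorem sum_mul_EE (m : Fin n → ℝ) :
    ∑ i, m i * EE L K i = ∑ T ∈ L, ∑ i ∈ T, m i * (K T - K (T.erase i)) := by
  classical
  unfold EE
  have h1 : ∀ i, m i * ∑ T ∈ L with i ∈ T, (K T - K (T.erase i)) =
      ∑ T ∈ L, (if i ∈ T then m i * (K T - K (T.erase i)) else 0) := by
    intro i
    rw [Finset.mul_sum, Finset.sum_filter]
  simp only [h1]
  rw [Finset.sum_comm]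
  apply Finset.sum_congr rfl
  intro T _
  rw [Finset.sum_ite_mem, Finset.univ_inter]

theorem two_P (hL : IsLinearSpace L) (hK : FNef K) :
    0 ≤ 2 * ∑ T ∈ L, K T - ∑ i, EE L K i := by
  have h1 := sum_mul_EE (L := L) (K := K) (fun _ => 1)
  simp only [one_mul] at h1
  rw [h1, Finset.mul_sum, ← Finset.sum_sub_distrib]
  apply Finset.sum_nonneg
  intro T hT
  have h2 := vee_bound hK T (by
    rw [← Finset.card_pos]
    have := hL.two T hT
    omega)
  rw [Finset.sum_sub_distrib, Finset.sum_const, nsmul_eq_mul]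
  linarith

theorem P_sub_line (hL : IsLinearSpace L) (hK : FNef K) (T₀ : Finset (Fin n)) (hT₀ : T₀ ∈ L) :
    0 ≤ ∑ T ∈ L, K T - ∑ i ∈ T₀, EE L K i := by
  classical
  have h1 := trace_bound hL hK T₀ᶜ
  rw [hK.compl] at h1
  have h2 := vee_bound hK T₀ (by
    rw [← Finset.card_pos]
    have := hL.two T₀ hT₀
    omega)
  have h3 := sum_mul_EE (L := L) (K := K) (fun i => if i ∈ T₀ then 1 else 0)
  simp only [ite_mul, one_mul, zero_mul] at h3
  rw [Finset.sum_ite_mem, Finset.univ_inter] at h3
  rw [h3]
  have h4 : ∑ T ∈ L, K T - ∑ T ∈ L, ∑ i ∈ T, (if i ∈ T₀ then K T - K (T.erase i) else 0) =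
      (2 - (T₀.card : ℝ)) * K T₀ + ∑ i ∈ T₀, K (T₀.erase i) +
      (∑ T ∈ L, K (T ∩ T₀ᶜ) - K T₀) := by
    rw [← Finset.sum_sub_distrib, ← Finset.add_sum_erase L _ hT₀, ← Finset.add_sum_erase L
      (fun T => K (T ∩ T₀ᶜ)) hT₀]
    have e1 : ∑ i ∈ T₀, (if i ∈ T₀ then K T₀ - K (T₀.erase i) else 0) =
        T₀.card * K T₀ - ∑ i ∈ T₀, K (T₀.erase i) := by
      rw [← nsmul_eq_mul, ← Finset.sum_const, ← Finset.sum_sub_distrib]
      apply Finset.sum_congr rfl
      intro i hi
      rw [if_pos hi]
    have e2 : T₀ ∩ T₀ᶜ = ∅ := by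
      ext x
      simp
    have e3 : ∑ T ∈ L.erase T₀, (K T - ∑ i ∈ T, (if i ∈ T₀ then K T - K (T.erase i) else 0)) =
        ∑ T ∈ L.erase T₀, K (T ∩ T₀ᶜ) := by
      apply Finset.sum_congr rfl
      intro T hT
      rw [Finset.mem_erase] at hT
      rw [← Finset.sum_filter]
      by_cases h5 : ∃ i, i ∈ T ∧ i ∈ T₀
      · obtain ⟨i, hi, hi0⟩ := h5
        have e4 : T.filter (fun i => i ∈ T₀) = {i} := by
          ext x
          simp only [Finset.mem_filter, Finset.mem_singleton]
          constructor
          · rintro ⟨hx, hx0⟩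
            by_contra hxi
            exact hT.1 (hL.unique hT.2 hT₀ (Ne.symm hxi) hi hx hi0 hx0)
          · rintro rfl
            exact ⟨hi, hi0⟩
        have e5 : T ∩ T₀ᶜ = T.erase i := by
          ext x
          simp only [Finset.mem_inter, Finset.mem_compl, Finset.mem_erase]
          constructor
          · rintro ⟨hx, hx0⟩
            exact ⟨fun h => hx0 (h ▸ hi0), hx⟩
          · rintro ⟨hxi, hx⟩
            refine ⟨hx, fun hx0 => ?_⟩
            have : x ∈ T.filter (fun i => i ∈ T₀) := Finset.mem_filter.2 ⟨hx, hx0⟩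
            rw [e4, Finset.mem_singleton] at this
            exact hxi this
        rw [e4, Finset.sum_singleton, e5]
        ring
      · push Not at h5
        have e4 : T.filter (fun i => i ∈ T₀) = ∅ := by
          rw [Finset.filter_eq_empty_iff]
          intro x hx
          exact h5 x hx
        have e5 : T ∩ T₀ᶜ = T := by
          ext x
          simp only [Finset.mem_inter, Finset.mem_compl]
          constructor
          · exact fun h => h.1
          · exact fun hx => ⟨hx, h5 x hx⟩
        rw [e4, Finset.sum_empty, e5]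
        ring
    rw [e1, e2, e3, hK.empty]
    ring
  rw [h4]
  linarith

/-- Positivity on classes with `m ≥ 0` and `m i + m j ≤ d`. -/
theorem nef_part (hn : 2 ≤ n) (hL : IsLinearSpace L) (hK : FNef K) (d : ℝ) (m : Fin n → ℝ)
    (hm : ∀ i, 0 ≤ m i) (hmm : ∀ i j, i ≠ j → m i + m j ≤ d) :
    0 ≤ d * ∑ T ∈ L, K T - ∑ i, m i * EE L K i := by
  classical
  have h1 := two_P hL hK
  have hE := EE_nonneg hn hL hK
  by_cases h : ∀ i, m i ≤ d / 2
  · have hd : 0 ≤ d / 2 := (hm ⟨0, by omega⟩).trans (h ⟨0, by omega⟩)
    have h2 : 0 ≤ ∑ i, (d / 2 - m i) * EE L K i :=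
      Finset.sum_nonneg fun i _ => mul_nonneg (by have := h i; linarith) (hE i)
    have h3 : 0 ≤ (d / 2) * (2 * ∑ T ∈ L, K T - ∑ i, EE L K i) := mul_nonneg hd h1
    have h4 : ∑ i, (d / 2 - m i) * EE L K i = (d / 2) * ∑ i, EE L K i - ∑ i, m i * EE L K i := by
      rw [Finset.mul_sum, ← Finset.sum_sub_distrib]
      apply Finset.sum_congr rfl
      intro i _
      ring
    rw [h4] at h2
    linarith
  · push Not at h
    obtain ⟨i₀, hi₀⟩ := h
    have hcard : 1 < (univ : Finset (Fin n)).card := by
      rw [Finset.card_univ, Fintype.card_fin]; omega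
    obtain ⟨j, _, hj⟩ := Finset.exists_mem_ne hcard i₀
    have hdm : m i₀ ≤ d := by
      have h5 := hmm i₀ j (Ne.symm hj)
      have h6 := hm j
      linarith
    have h2 : 0 ≤ (2 * m i₀ - d) * (∑ T ∈ L, K T - EE L K i₀) :=
      mul_nonneg (by linarith) (P_sub_EE hL hK i₀)
    have h3 : 0 ≤ (d - m i₀) * (2 * ∑ T ∈ L, K T - ∑ i, EE L K i) :=
      mul_nonneg (by linarith) h1
    have h4 : 0 ≤ ∑ i ∈ univ.erase i₀, (d - m i₀ - m i) * EE L K i := by
      apply Finset.sum_nonneg
      intro i hi
      apply mul_nonneg _ (hE i)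
      have := hmm i₀ i (Ne.symm (Finset.mem_erase.1 hi).1)
      linarith
    have h5 : ∑ i ∈ univ.erase i₀, (d - m i₀ - m i) * EE L K i =
        (d - m i₀) * ∑ i ∈ univ.erase i₀, EE L K i - ∑ i ∈ univ.erase i₀, m i * EE L K i := by
      rw [Finset.mul_sum, ← Finset.sum_sub_distrib]
      apply Finset.sum_congr rfl
      intro i _
      ring
    have h6 : ∑ i, EE L K i = EE L K i₀ + ∑ i ∈ univ.erase i₀, EE L K i :=
      (Finset.add_sum_erase univ _ (Finset.mem_univ i₀)).symm
    have h7 : ∑ i, m i * EE L K i = m i₀ * EE L K i₀ + ∑ i ∈ univ.erase i₀, m i * EE L K i :=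
      (Finset.add_sum_erase univ _ (Finset.mem_univ i₀)).symm
    rw [h5] at h4
    rw [h6] at h3
    rw [h7]
    linarith

end Sums

/-- The main theorem on plane configurations. -/
theorem plane_main (hn : 2 ≤ n) (L : Finset (Finset (Fin n))) (hL : IsLinearSpace L) (d : ℝ)
    (m : Fin n → ℝ) (h : PlaneEffective L d m) : InFCone (planeClass L d m) := by
  classical
  apply dual_criterion
  · intro S
    unfold planeClass
    simp only [ee_compl]
  · intro S hS
    unfold planeClass
    simp only [ee_improper _ S hS, mul_zero, Finset.sum_const_zero, add_zero]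
  · intro K hK
    have h1 : ∑ S, planeClass L d m S * K S =
        2 * (d * ∑ T ∈ L, K T - ∑ i, m i * EE L K i) := by
      rw [sum_mul_EE]
      unfold planeClass
      have h2 : ∀ S, (∑ T ∈ L, ((d - ∑ i ∈ T, m i) * ee T S +
          ∑ i ∈ T, m i * ee (T.erase i) S)) * K S =
          ∑ T ∈ L, ((d - ∑ i ∈ T, m i) * (ee T S * K S) +
          ∑ i ∈ T, m i * (ee (T.erase i) S * K S)) := by
        intro S
        rw [Finset.sum_mul]
        apply Finset.sum_congr rfl
        intro T _
        rw [add_mul, Finset.sum_mul]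
        congr 1
        · ring
        · apply Finset.sum_congr rfl
          intro i _
          ring
      simp only [h2]
      rw [Finset.sum_comm]
      have h3 : ∀ T ∈ L, ∑ S, ((d - ∑ i ∈ T, m i) * (ee T S * K S) +
          ∑ i ∈ T, m i * (ee (T.erase i) S * K S)) =
          2 * (d * K T - ∑ i ∈ T, m i * (K T - K (T.erase i))) := by
        intro T _
        rw [Finset.sum_add_distrib, ← Finset.mul_sum, ee_sum (by omega) hK, Finset.sum_comm]
        have h4 : ∀ i ∈ T, ∑ S, m i * (ee (T.erase i) S * K S) = m i * (2 * K (T.erase i)) := by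
          intro i _
          rw [← Finset.mul_sum, ee_sum (by omega) hK]
        rw [Finset.sum_congr rfl h4]
        have h5 : ∑ i ∈ T, m i * (K T - K (T.erase i)) =
            (∑ i ∈ T, m i) * K T - ∑ i ∈ T, m i * K (T.erase i) := by
          rw [Finset.sum_mul, ← Finset.sum_sub_distrib]
          apply Finset.sum_congr rfl
          intro i _
          ring
        have h6 : ∑ i ∈ T, m i * (2 * K (T.erase i)) = 2 * ∑ i ∈ T, m i * K (T.erase i) := by
          rw [Finset.mul_sum]
          apply Finset.sum_congr rfl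
          intro i _
          ring
        rw [h5, h6]
        ring
      rw [Finset.sum_congr rfl h3, ← Finset.mul_sum, Finset.sum_sub_distrib, ← Finset.mul_sum]
    rw [h1]
    obtain ⟨d₀, m₀, a, b, hm0, hmm, ha, hb, hd, hm⟩ := h
    have h2 := nef_part hn hL hK d₀ m₀ hm0 hmm
    have h3 : 0 ≤ ∑ i, a i * EE L K i :=
      Finset.sum_nonneg fun i _ => mul_nonneg (ha i) (EE_nonneg hn hL hK i)
    have h4 : 0 ≤ ∑ T ∈ L, b T * (∑ T' ∈ L, K T' - ∑ i ∈ T, EE L K i) :=
      Finset.sum_nonneg fun T hT => mul_nonneg (hb T) (P_sub_line hL hK T hT)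
    have h5 : ∑ i, m i * EE L K i = ∑ i, m₀ i * EE L K i - ∑ i, a i * EE L K i +
        ∑ T ∈ L, b T * ∑ i ∈ T, EE L K i := by
      have h6 : ∑ T ∈ L, b T * ∑ i ∈ T, EE L K i =
          ∑ i, (∑ T ∈ L with i ∈ T, b T) * EE L K i := by
        have h7 : ∀ T ∈ L, b T * ∑ i ∈ T, EE L K i =
            ∑ i, (if i ∈ T then b T * EE L K i else 0) := by
          intro T _
          rw [Finset.sum_ite_mem, Finset.univ_inter, Finset.mul_sum]
        rw [Finset.sum_congr rfl h7, Finset.sum_comm]
        apply Finset.sum_congr rfl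
        intro i _
        rw [Finset.sum_mul, Finset.sum_filter]
      rw [h6, ← Finset.sum_sub_distrib, ← Finset.sum_add_distrib]
      apply Finset.sum_congr rfl
      intro i _
      rw [hm i]
      ring
    have h6 : ∑ T ∈ L, b T * (∑ T' ∈ L, K T' - ∑ i ∈ T, EE L K i) =
        (∑ T ∈ L, b T) * ∑ T ∈ L, K T - ∑ T ∈ L, b T * ∑ i ∈ T, EE L K i := by
      rw [Finset.sum_mul, ← Finset.sum_sub_distrib]
      apply Finset.sum_congr rfl
      intro T _
      ring
    rw [h6] at h4
    rw [h5, hd]
    linarith

end Pool.Agent.Helper88.CC
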